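import Pool.Agent.P.MP_29b816_gt.T.Defs

/-! Chain-level lemmas: cones, restriction to a vertex link, the fundamental chain. -/

namespace HP15

open Finset

variable {V : Type*} [Fintype V] [DecidableEq V]

theorem z2_add_self (a : ZMod 2) : a + a = 0 := by
  have : (2 : ZMod 2) = 0 := rfl
  rw [← two_mul, this, zero_mul]

theorem z2_eq_one {a : ZMod 2} (h : a ≠ 0) : a = 1 := by
  revert a; decide

theorem fun_add_self (c : Finset V → ZMod 2) : c + c = 0 := by
  funext s; exact z2_add_self _

theorem sum_symm_zero {M : Type*} [AddCommGroup M] (h2 : ∀ a : M, a + a = 0) (f : V → V → M)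
    (hs : ∀ v w, f v w = f w v) (hd : ∀ v, f v v = 0) : ∑ v, ∑ w, f v w = 0 := by
  rw [← Finset.sum_product']
  refine Finset.sum_involution (fun p _ => p.swap) ?_ ?_ ?_ ?_
  · intro p _
    simp only [Prod.fst_swap, Prod.snd_swap]
    rw [hs p.2 p.1]; exact h2 _
  · intro p _ hp he
    apply hp
    have : p.2 = p.1 := by simpa using congrArg Prod.fst he
    rw [this]; exact hd _
  · intro p _; simp
  · intro p _; simp

theorem bd_add (c d : Finset V → ZMod 2) : bd (c + d) = bd c + bd d := by
  funext t
  simp only [bd, Pi.add_apply, ← Finset.sum_add_distrib]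
  refine Finset.sum_congr rfl fun v _ => ?_
  split_ifs <;> simp

theorem bd_zero : bd (0 : Finset V → ZMod 2) = 0 := by
  funext t; simp [bd]

theorem bd_sum {ι : Type*} (s : Finset ι) (f : ι → Finset V → ZMod 2) :
    bd (∑ i ∈ s, f i) = ∑ i ∈ s, bd (f i) := by
  classical
  induction s using Finset.induction_on with
  | empty => simp [bd_zero]
  | insert a s ha ih => rw [Finset.sum_insert ha, Finset.sum_insert ha, bd_add, ih]

theorem bd_bd (c : Finset V → ZMod 2) : bd (bd c) = 0 := by
  funext t
  have : bd (bd c) t = ∑ v, ∑ w,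
      (if v ∈ t ∨ w ∈ t ∨ w = v then 0 else c (insert w (insert v t))) := by
    unfold bd
    refine Finset.sum_congr rfl fun v _ => ?_
    by_cases hv : v ∈ t
    · simp [hv]
    · rw [if_neg hv]
      refine Finset.sum_congr rfl fun w _ => ?_
      by_cases hw : w ∈ t
      · simp [hw]
      · by_cases hwv : w = v
        · simp [hwv]
        · simp [hv, hw, hwv]
  rw [this]
  refine sum_symm_zero z2_add_self _ ?_ ?_
  · intro v w
    rw [Finset.insert_comm w v t]
    refine if_congr ?_ rfl rfl
    constructor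
    · rintro (h | h | h)
      · exact Or.inr (Or.inl h)
      · exact Or.inl h
      · exact Or.inr (Or.inr h.symm)
    · rintro (h | h | h)
      · exact Or.inr (Or.inl h)
      · exact Or.inl h
      · exact Or.inr (Or.inr h.symm)
  · intro v; simp

/-- The cone over a chain with apex `v`. -/
def cone (v : V) (e : Finset V → ZMod 2) (t : Finset V) : ZMod 2 :=
  if v ∈ t then e (t.erase v) else 0

/-- The part of a chain in the star of `v`, seen in the link of `v`. -/
def res (v : V) (c : Finset V → ZMod 2) (t : Finset V) : ZMod 2 :=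
  if v ∈ t then 0 else c (insert v t)

theorem bd_cone (v : V) (e : Finset V → ZMod 2) : bd (cone v e) = e + cone v (bd e) := by
  funext t
  by_cases hv : v ∈ t
  · have h1 : bd (cone v e) t = ∑ w, if w ∈ t then 0 else e (insert w (t.erase v)) := by
      unfold bd cone
      refine Finset.sum_congr rfl fun w _ => ?_
      by_cases hw : w ∈ t
      · simp [hw]
      · have hwv : w ≠ v := fun h => hw (h ▸ hv)
        rw [if_neg hw, if_neg hw, if_pos (Finset.mem_insert_of_mem hv),
          Finset.erase_insert_of_ne hwv]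
    have h2 : bd e (t.erase v) = e t + ∑ w, if w ∈ t then 0 else e (insert w (t.erase v)) := by
      unfold bd
      rw [← Finset.add_sum_erase _ _ (Finset.mem_univ v),
        ← Finset.add_sum_erase _ (fun w => if w ∈ t then 0 else e (insert w (t.erase v)))
          (Finset.mem_univ v)]
      rw [if_neg (Finset.notMem_erase v t), Finset.insert_erase hv, if_pos hv, zero_add]
      congr 1
      refine Finset.sum_congr rfl fun w hw => ?_
      have hwv : w ≠ v := (Finset.mem_erase.1 hw).1
      simp [Finset.mem_erase, hwv]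
    rw [h1, Pi.add_apply, cone, if_pos hv, h2, ← add_assoc, z2_add_self, zero_add]
  · rw [Pi.add_apply, cone, if_neg hv, add_zero]
    unfold bd cone
    rw [Finset.sum_eq_single v]
    · rw [if_neg hv, if_pos (Finset.mem_insert_self v t), Finset.erase_insert hv]
    · intro w _ hwv
      have : v ∉ insert w t := by
        simp only [Finset.mem_insert, not_or]; exact ⟨fun h => hwv h.symm, hv⟩
      simp [this]
    · intro h; exact absurd (Finset.mem_univ v) h

theorem bd_res (v : V) (c : Finset V → ZMod 2) : bd (res v c) = res v (bd c) := by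
  funext t
  by_cases hv : v ∈ t
  · unfold bd res
    rw [if_pos hv]
    refine Finset.sum_eq_zero fun w _ => ?_
    simp [hv]
  · unfold bd res
    rw [if_neg hv]
    refine Finset.sum_congr rfl fun w _ => ?_
    by_cases hw : w ∈ t
    · simp [hw]
    · by_cases hwv : w = v
      · simp [hwv]
      · have h1 : v ∉ insert w t := by
          simp only [Finset.mem_insert, not_or]; exact ⟨fun h => hwv h.symm, hv⟩
        have h2 : w ∉ insert v t := by
          simp only [Finset.mem_insert, not_or]; exact ⟨hwv, hw⟩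
        rw [if_neg hw, if_neg h1, if_neg h2, Finset.insert_comm]

theorem res_add (v : V) (c d : Finset V → ZMod 2) : res v (c + d) = res v c + res v d := by
  funext t; unfold res; split_ifs with h <;> simp [h]

theorem isChain_zero (L : Set (Finset V)) (k : ℕ) : IsChain L k 0 := fun _ h => absurd rfl h

theorem IsChain.add {L : Set (Finset V)} {k : ℕ} {c d : Finset V → ZMod 2}
    (hc : IsChain L k c) (hd : IsChain L k d) : IsChain L k (c + d) := by
  intro s hs
  by_cases h : c s = 0
  · apply hd s; intro h'; apply hs; simp [h, h']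
  · exact hc s h

theorem IsChain.mono {L L' : Set (Finset V)} {k : ℕ} {c : Finset V → ZMod 2}
    (hc : IsChain L k c) (h : L ⊆ L') : IsChain L' k c :=
  fun s hs => ⟨h (hc s hs).1, (hc s hs).2⟩

theorem isChain_sum {ι : Type*} {L : Set (Finset V)} {k : ℕ} (s : Finset ι)
    (f : ι → Finset V → ZMod 2) (h : ∀ i ∈ s, IsChain L k (f i)) :
    IsChain L k (∑ i ∈ s, f i) := by
  classical
  induction s using Finset.induction_on with
  | empty => simpa using isChain_zero L k
  | insert a s ha ih =>
    rw [Finset.sum_insert ha]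
    exact (h a (Finset.mem_insert_self _ _)).add
      (ih fun i hi => h i (Finset.mem_insert_of_mem hi))

/-- A nonzero coefficient of a boundary comes from a simplex of the chain. -/
theorem exists_of_bd_ne {c : Finset V → ZMod 2} {t : Finset V} (h : bd c t ≠ 0) :
    ∃ v, v ∉ t ∧ c (insert v t) ≠ 0 := by
  obtain ⟨v, -, hv⟩ := Finset.exists_ne_zero_of_sum_ne_zero h
  by_cases hvt : v ∈ t
  · simp [hvt] at hv
  · exact ⟨v, hvt, by simpa [hvt] using hv⟩

theorem IsChain.bd {L : Set (Finset V)} (hL : ∀ s ∈ L, ∀ t, t ⊆ s → t ∈ L) {k : ℕ}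
    {c : Finset V → ZMod 2} (hc : IsChain L (k + 1) c) : IsChain L k (bd c) := by
  intro t ht
  obtain ⟨v, hv, hcv⟩ := exists_of_bd_ne ht
  obtain ⟨h1, h2⟩ := hc _ hcv
  refine ⟨hL _ h1 _ (Finset.subset_insert _ _), ?_⟩
  rw [Finset.card_insert_of_notMem hv] at h2
  omega

/-- The induced subcomplex on the complement of `τ`. -/
def del (L : Set (Finset V)) (τ : Finset V) : Set (Finset V) := {s | s ∈ L ∧ Disjoint s τ}

theorem del_sub (L : Set (Finset V)) (τ : Finset V) : del L τ ⊆ L := fun _ h => h.1

theorem del_anti (L : Set (Finset V)) {τ τ' : Finset V} (h : τ ⊆ τ') : del L τ' ⊆ del L τ :=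
  fun _ hs => ⟨hs.1, Finset.disjoint_of_subset_right h hs.2⟩

theorem del_empty (L : Set (Finset V)) : del L ∅ = L := by
  ext s; simp [del]

theorem del_down {L : Set (Finset V)} (hL : ∀ s ∈ L, ∀ t, t ⊆ s → t ∈ L) (τ : Finset V) :
    ∀ s ∈ del L τ, ∀ t, t ⊆ s → t ∈ del L τ :=
  fun s hs t ht => ⟨hL s hs.1 t ht, Finset.disjoint_of_subset_left ht hs.2⟩

theorem mem_link_single {L : Set (Finset V)} {v : V} {t : Finset V} :
    t ∈ link L {v} ↔ v ∉ t ∧ insert v t ∈ L := by
  unfold link
  rw [Set.mem_setOf_eq, Finset.disjoint_singleton_left, Finset.insert_eq]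

theorem IsChain.res {L : Set (Finset V)} {k : ℕ} {c : Finset V → ZMod 2} (v : V)
    {τ : Finset V} (hc : IsChain (del L τ) (k + 1) c) :
    IsChain (del (link L {v}) τ) k (res v c) := by
  intro t ht
  unfold HP15.res at ht
  by_cases hv : v ∈ t
  · simp [hv] at ht
  · rw [if_neg hv] at ht
    obtain ⟨⟨h1, h2⟩, h3⟩ := hc _ ht
    refine ⟨⟨mem_link_single.2 ⟨hv, h1⟩,
      Finset.disjoint_of_subset_left (Finset.subset_insert _ _) h2⟩, ?_⟩
    rw [Finset.card_insert_of_notMem hv] at h3
    omega

theorem IsChain.cone {L : Set (Finset V)} {k : ℕ} {e : Finset V → ZMod 2} {v : V}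
    {τ : Finset V} (hv : v ∉ τ) (he : IsChain (del (link L {v}) τ) k e) :
    IsChain (del L τ) (k + 1) (cone v e) := by
  intro t ht
  unfold HP15.cone at ht
  by_cases hvt : v ∈ t
  · rw [if_pos hvt] at ht
    obtain ⟨⟨h1, h2⟩, h3⟩ := he _ ht
    have h4 := (mem_link_single.1 h1).2
    rw [Finset.insert_erase hvt] at h4
    refine ⟨⟨h4, ?_⟩, ?_⟩
    · rw [← Finset.insert_erase hvt, Finset.disjoint_insert_left]
      exact ⟨hv, h2⟩
    · rw [← h3, Finset.card_erase_of_mem hvt]
      have := Finset.card_pos.2 ⟨v, hvt⟩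
      omega
  · simp [hvt] at ht

/-- One pushing step: a chain whose part at `v` bounds in the link is moved off `v`. -/
theorem push_step {L : Set (Finset V)} (hL : ∀ s ∈ L, ∀ t, t ⊆ s → t ∈ L) {k : ℕ}
    {c e : Finset V → ZMod 2} {v : V} {τ : Finset V} (hv : v ∉ τ)
    (hc : IsChain (del L τ) k c) (he : IsChain (del (link L {v}) τ) k e)
    (hb : bd e = res v c) : IsChain (del L (insert v τ)) k (c + bd (cone v e)) := by
  rw [bd_cone, hb]
  intro t ht
  by_cases hvt : v ∈ t
  · exfalso
    apply ht
    have h1 : e t = 0 := by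
      by_contra h
      exact (mem_link_single.1 (he t h).1.1).1 hvt
    simp only [Pi.add_apply, cone, res, if_pos hvt, h1, zero_add,
      if_neg (Finset.notMem_erase v t), Finset.insert_erase hvt]
    exact z2_add_self _
  · simp only [Pi.add_apply, cone, if_neg hvt, add_zero] at ht
    by_cases h : c t = 0
    · have h' : e t ≠ 0 := by intro h'; apply ht; simp [h, h']
      obtain ⟨⟨h1, h2⟩, h3⟩ := he t h'
      refine ⟨⟨hL _ (mem_link_single.1 h1).2 _ (Finset.subset_insert _ _), ?_⟩, h3⟩
      rw [Finset.disjoint_insert_right]; exact ⟨hvt, h2⟩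
    · obtain ⟨⟨h1, h2⟩, h3⟩ := hc t h
      refine ⟨⟨h1, ?_⟩, h3⟩
      rw [Finset.disjoint_insert_right]; exact ⟨hvt, h2⟩

open Classical in
/-- The sum of all simplices with `n` vertices. -/
noncomputable def fund (L : Set (Finset V)) (n : ℕ) (s : Finset V) : ZMod 2 :=
  if s ∈ L ∧ s.card = n then 1 else 0

theorem isChain_fund (L : Set (Finset V)) (n : ℕ) : IsChain L n (fund L n) := by
  intro s hs
  by_contra h
  exact hs (by simp only [fund]; rw [if_neg h])

theorem res_fund (L : Set (Finset V)) (n : ℕ) (v : V) :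
    res v (fund L (n + 1)) = fund (link L {v}) n := by
  classical
  funext t
  unfold res fund
  by_cases hv : v ∈ t
  · rw [if_pos hv, if_neg]
    intro h; exact (mem_link_single.1 h.1).1 hv
  · rw [if_neg hv]
    refine if_congr ?_ rfl rfl
    rw [mem_link_single, Finset.card_insert_of_notMem hv]
    constructor
    · rintro ⟨h1, h2⟩; exact ⟨⟨hv, h1⟩, by omega⟩
    · rintro ⟨⟨-, h1⟩, h2⟩; exact ⟨h1, by omega⟩

end HP15
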