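import Pool.Agent.P.MP_29b816_gt.T.Cyc

/-! Complementarity (Arnoux-Marin) for 15-vertex homology 8-manifolds with `H_4 ≠ 0`. -/

namespace HP15

open Finset

variable {V : Type*} [Fintype V] [DecidableEq V] {K : Set (Finset V)}

theorem sum_two {f : V → ZMod 2} {x y : V} (hxy : x ≠ y) (h : ∀ u, f u ≠ 0 → u = x ∨ u = y) :
    ∑ u, f u = f x + f y := by
  refine Finset.sum_eq_add_of_mem x y (Finset.mem_univ _) (Finset.mem_univ _) hxy ?_
  intro c _ hc
  by_contra hne
  rcases h c hne with h' | h'
  · exact hc.1 h'
  · exact hc.2 h'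

/-- The cycle condition at a pair `(A, B)` that misses exactly the vertices `x`, `y`. -/
theorem cyc_two {F : Finset V → Finset V → ZMod 2}
    (hs : ∀ A B, F A B ≠ 0 → Disjoint B A) {A B : Finset V} (hc : bd (F A) = D F A) {x y : V}
    (hxy : x ≠ y) (hxA : x ∉ A) (hyA : y ∉ A) (hxB : x ∉ B) (hyB : y ∉ B)
    (hall : ∀ u, u ∉ A → u ∉ B → u = x ∨ u = y) :
    F A (insert x B) + F A (insert y B) = F (insert x A) B + F (insert y A) B := by
  have h := congrFun hc B
  unfold bd D at h
  rw [Finset.sum_apply, sum_two hxy, sum_two hxy] at h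
  · simpa [hxA, hyA, hxB, hyB] using h
  · intro u hu
    by_cases huA : u ∈ A
    · simp [huA] at hu
    · rw [if_neg huA] at hu
      exact hall u huA fun huB =>
        Finset.disjoint_left.1 (hs _ _ hu) huB (Finset.mem_insert_self u A)
  · intro u hu
    by_cases huB : u ∈ B
    · simp [huB] at hu
    · rw [if_neg huB] at hu
      exact hall u (Finset.disjoint_left.1 (hs _ _ hu) (Finset.mem_insert_self u B)) huB

theorem not_both (hV : Fintype.card V = 15) (h : Man K 9) {z : Finset V → ZMod 2}
    (hz : IsChain K 5 z) (hb : bd z = 0) (hn : ¬ ∃ c, IsChain K 6 c ∧ bd c = z)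
    {W : Finset V} (hW : W ∈ K) : Wᶜ ∉ K := by
  intro hW'
  rcases W.eq_empty_or_nonempty with rfl | hne
  · have := h.dim _ hW'
    rw [Finset.compl_empty, Finset.card_univ, hV] at this
    omega
  · obtain ⟨σ, hσ, hsub, hc⟩ := h.pure hW hne
    exact (facet_compl hV h hz hb hn hσ hc).1
      (h.down _ hW' _ (Finset.compl_subset_compl.2 hsub))

theorem compl_mem (hV : Fintype.card V = 15) (h : Man K 9) {z : Finset V → ZMod 2}
    (hz : IsChain K 5 z) (hb : bd z = 0) (hn : ¬ ∃ c, IsChain K 6 c ∧ bd c = z)
    {W : Finset V} (hW : W ∉ K) : Wᶜ ∈ K := by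
  obtain ⟨F, hF1, hF2, hF3, hF4⟩ := exists_family hV h hz hb hn 8 le_rfl
  have hnb : ∀ W ∈ K, Wᶜ ∉ K := fun W hW => not_both hV h hz hb hn hW
  have hA : ∀ A B, F A B ≠ 0 → A ∈ K := fun A B hne =>
    (hF2 A (fun h0 => hne (by rw [h0]; rfl))).1
  have hB : ∀ A B, F A B ≠ 0 → B ∈ K := fun A B hne => (hF1 A B hne).1.1
  have hs : ∀ A B, F A B ≠ 0 → Disjoint B A := fun A B hne => (hF1 A B hne).1.2
  have hcard : ∀ A B, F A B ≠ 0 → 5 ≤ A.card := by
    intro A B hne
    have h1 := (hF1 A B hne).2
    have h2 := h.dim _ (hB A B hne)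
    omega
  have down : ∀ A x y, x ∉ A → F A (insert x A)ᶜ ≠ 0 → y ∈ A →
      F (A.erase y) (insert x (A.erase y))ᶜ ≠ 0 ∨
        F (insert x (A.erase y)) (insert x A)ᶜ ≠ 0 := by
    intro A x y hx hne hy
    have hxy : x ≠ y := fun e => hx (e ▸ hy)
    have h5 := hcard _ _ hne
    have key := cyc_two hs (A := A.erase y) (B := (insert x A)ᶜ)
      (hF4 _ (by rw [Finset.card_erase_of_mem hy]; omega)) hxy
      (fun h' => hx (Finset.mem_of_mem_erase h')) (Finset.notMem_erase y A)
      (by simp) (by simp [hy]) (by
        intro u h1 h2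
        simp only [Finset.mem_compl, not_not, Finset.mem_insert, Finset.mem_erase, not_and] at h1 h2
        rcases h2 with h2 | h2
        · exact Or.inl h2
        · by_contra hc
          rw [not_or] at hc
          exact h1 hc.2 h2)
    have e1 : insert x (insert x A)ᶜ = Aᶜ := by
      ext u
      by_cases hu : u = x
      · simp [hu, hx]
      · simp [hu]
    have e2 : insert y (insert x A)ᶜ = (insert x (A.erase y))ᶜ := by
      ext u
      by_cases hu : u = y
      · simp [hu, hxy.symm]
      · simp [hu]
    have e3 : F (A.erase y) Aᶜ = 0 := by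
      by_contra h'
      exact hnb A (hA _ _ hne) (hB _ _ h')
    rw [e1, e2, e3, Finset.insert_erase hy, zero_add] at key
    by_contra hc
    rw [not_or, not_not, not_not] at hc
    rw [hc.1, hc.2, zero_add] at key
    exact hne key.symm
  have up : ∀ A x y, x ∉ A → F A (insert x A)ᶜ ≠ 0 → y ∉ A → y ≠ x →
      F A (insert y A)ᶜ ≠ 0 ∨ F (insert y A) (insert x (insert y A))ᶜ ≠ 0 := by
    intro A x y hx hne hy hyx
    have h5 := hcard _ _ hne
    have key := cyc_two hs (A := A) (B := (insert x (insert y A))ᶜ)
      (hF4 _ (by omega)) hyx.symm hx hy (by simp) (by simp) (by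
        intro u h1 h2
        simpa only [Finset.mem_compl, not_not, Finset.mem_insert, h1, or_false] using h2)
    have e1 : insert x (insert x (insert y A))ᶜ = (insert y A)ᶜ := by
      ext u
      by_cases hu : u = x
      · simp [hu, hx, hyx.symm]
      · simp [hu]
    have e2 : insert y (insert x (insert y A))ᶜ = (insert x A)ᶜ := by
      ext u
      by_cases hu : u = y
      · simp [hu, hy, hyx]
      · simp [hu]
    have e3 : F (insert x A) (insert x (insert y A))ᶜ = 0 := by
      by_contra h'
      exact hnb _ (hA _ _ h') (hB _ _ hne)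
    rw [e1, e2, e3, zero_add] at key
    by_contra hc
    rw [not_or, not_not, not_not] at hc
    rw [hc.1, hc.2, zero_add] at key
    exact hne key
  have walk : ∀ m A x, x ∉ A → F A (insert x A)ᶜ ≠ 0 →
      17 * (insert x A \ W).card + (if x ∈ W then 16 else (W \ A).card) = m → Wᶜ ∈ K := by
    intro m
    induction m using Nat.strong_induction_on with
    | _ m ih =>
      intro A x hx hne hm
      by_cases hxW : x ∈ W
      · rw [if_pos hxW] at hm
        by_cases hsub : A ⊆ W
        · exact h.down _ (hB _ _ hne) _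
            (Finset.compl_subset_compl.2 (Finset.insert_subset hxW hsub))
        · obtain ⟨y, hyA, hyW⟩ := Finset.not_subset.1 hsub
          have hxy : x ≠ y := fun e => hx (e ▸ hyA)
          rcases down A x y hx hne hyA with h1 | h1
          · refine ih _ ?_ (A.erase y) x (fun h' => hx (Finset.mem_of_mem_erase h')) h1 rfl
            rw [if_pos hxW]
            have : (insert x (A.erase y) \ W).card < (insert x A \ W).card := by
              refine Finset.card_lt_card ⟨Finset.sdiff_subset_sdiff
                (Finset.insert_subset_insert _ (Finset.erase_subset _ _)) le_rfl, fun hc => ?_⟩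
              have := hc (Finset.mem_sdiff.2 ⟨Finset.mem_insert_of_mem hyA, hyW⟩)
              simp [hxy.symm] at this
            omega
          · have e : insert y (insert x (A.erase y)) = insert x A := by
              rw [Finset.insert_comm, Finset.insert_erase hyA]
            refine ih _ ?_ (insert x (A.erase y)) y (by simp [hxy.symm]) (by rwa [e]) rfl
            rw [if_neg hyW, e]
            have := Finset.card_le_univ (W \ insert x (A.erase y))
            omega
      · rw [if_neg hxW] at hm
        have hsub : ¬ W ⊆ A := fun hc => hW (h.down _ (hA _ _ hne) _ hc)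
        obtain ⟨y, hyW, hyA⟩ := Finset.not_subset.1 hsub
        have hyx : y ≠ x := fun e => hxW (e ▸ hyW)
        have e0 : ∀ S : Finset V, insert y S \ W = S \ W := fun S =>
          Finset.insert_sdiff_of_mem S hyW
        rcases up A x y hx hne hyA hyx with h1 | h1
        · refine ih _ ?_ A y hyA h1 rfl
          rw [if_pos hyW, e0]
          rw [Finset.insert_sdiff_of_notMem _ hxW,
            Finset.card_insert_of_notMem (fun h' => hx (Finset.mem_sdiff.1 h').1)] at hm
          omega
        · refine ih _ ?_ (insert y A) x (by simp [hx, hyx.symm]) h1 rfl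
          rw [if_neg hxW, Finset.insert_comm, e0]
          have : (W \ insert y A).card < (W \ A).card := by
            refine Finset.card_lt_card ⟨Finset.sdiff_subset_sdiff le_rfl
              (Finset.subset_insert _ _), fun hc => ?_⟩
            have := hc (Finset.mem_sdiff.2 ⟨hyW, hyA⟩)
            simp at this
          omega
  have hz0 : z ≠ 0 := fun h0 => hn ⟨0, isChain_zero _ _, by rw [bd_zero, h0]⟩
  obtain ⟨t, ht⟩ := Function.ne_iff.1 hz0
  obtain ⟨σ, hσ, -, hc⟩ := h.pure (hz t ht).1 (Finset.card_pos.1 (by rw [(hz t ht).2]; omega))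
  obtain ⟨x, hx⟩ : σᶜ.Nonempty := Finset.card_pos.1 (by rw [compl_card hV hc]; omega)
  refine walk _ σ x (Finset.mem_compl.1 hx) ?_ rfl
  rw [hF3 σ hσ hc, Finset.compl_insert, bd_dl_erase hx]
  exact one_ne_zero

/-- Complementarity: exactly one of `W`, `Wᶜ` is a face. -/
theorem complementarity (hV : Fintype.card V = 15) (h : Man K 9) (hn : ¬ Acyc K 5)
    (W : Finset V) : W ∈ K ↔ Wᶜ ∉ K := by
  unfold Acyc at hn
  push Not at hn
  obtain ⟨z, hz, hb, hn⟩ := hn
  have hn' : ¬ ∃ c, IsChain K 6 c ∧ bd c = z := fun ⟨c, h1, h2⟩ => hn c h1 h2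
  exact ⟨not_both hV h hz hb hn', fun h' => by
    by_contra hW; exact h' (compl_mem hV h hz hb hn' hW)⟩

end HP15
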