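import Pool.Agent.P.MP_29b816_gt.T.Push

/-! Ridges, complements of facets and the 13-cycle in the deleted join. -/

namespace HP15

open Finset

variable {V : Type*} [Fintype V] [DecidableEq V]

/-- The chain that consists of one simplex. -/
def dl (s : Finset V) (t : Finset V) : ZMod 2 := if t = s then 1 else 0

theorem isChain_dl {L : Set (Finset V)} {s : Finset V} (hs : s ∈ L) : IsChain L s.card (dl s) := by
  intro t ht
  by_cases h : t = s
  · subst h; exact ⟨hs, rfl⟩
  · simp [dl, h] at ht

theorem bd_dl_erase {s : Finset V} {v : V} (hv : v ∈ s) : bd (dl s) (s.erase v) = 1 := by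
  unfold bd dl
  rw [Finset.sum_eq_single v]
  · rw [if_neg (Finset.notMem_erase v s), Finset.insert_erase hv, if_pos rfl]
  · intro w _ hwv
    split_ifs with h1 h2
    · rfl
    · exfalso
      have : v ∈ insert w (s.erase v) := by rw [h2]; exact hv
      rcases Finset.mem_insert.1 this with h | h
      · exact hwv h.symm
      · exact Finset.notMem_erase v s h
    · rfl
  · intro h; exact absurd (Finset.mem_univ v) h

theorem eq_dl {c : Finset V → ZMod 2} {s : Finset V} (h : ∀ t, c t ≠ 0 → t = s) (h0 : c ≠ 0) :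
    c = dl s := by
  obtain ⟨u, hu⟩ := Function.ne_iff.1 h0
  funext t
  unfold dl
  split_ifs with ht
  · rw [ht, ← h u hu]; exact z2_eq_one hu
  · by_contra hne; exact ht (h t hne)

theorem bd_pair {a b : V} : bd (dl ({a} : Finset V) + dl {b}) = 0 := by
  have key : ∀ a : V, bd (dl ({a} : Finset V)) = dl ∅ := by
    intro a
    apply eq_dl
    · intro t ht
      obtain ⟨v, hv, h⟩ := exists_of_bd_ne ht
      have h1 : insert v t = {a} := by
        by_contra hne; simp [dl, hne] at h
      have h2 := congrArg Finset.card h1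
      rw [Finset.card_insert_of_notMem hv, Finset.card_singleton] at h2
      exact Finset.card_eq_zero.1 (by omega)
    · intro h
      have h1 := bd_dl_erase (s := ({a} : Finset V)) (Finset.mem_singleton_self a)
      rw [h] at h1
      exact zero_ne_one h1
  rw [bd_add, key, key, fun_add_self]

/-- A homology 0-sphere has exactly two vertices. -/
theorem HomSphere.two {L : Set (Finset V)} (h : HomSphere L 1) :
    ∃ a b : V, a ≠ b ∧ ∀ v, {v} ∈ L ↔ v = a ∨ v = b := by
  obtain ⟨z, ⟨hz, hb, h0⟩, hu⟩ := h.2.2
  have pair : ∀ a b : V, a ≠ b → {a} ∈ L → {b} ∈ L → dl ({a} : Finset V) + dl {b} = z := by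
    intro a b hab ha hb'
    refine hu _ ⟨?_, bd_pair, ?_⟩
    · exact (by simpa using isChain_dl ha : IsChain L 1 (dl {a})).add
        (by simpa using isChain_dl hb' : IsChain L 1 (dl {b}))
    · intro h
      have := congrFun h {a}
      simp [dl, hab] at this
  obtain ⟨t, ht⟩ := Function.ne_iff.1 h0
  obtain ⟨a, rfl⟩ := Finset.card_eq_one.1 (hz t ht).2
  have ha := (hz _ ht).1
  obtain ⟨b, hba, hbL⟩ : ∃ b, b ≠ a ∧ {b} ∈ L := by
    by_contra hno
    have hz1 : z = dl {a} := by
      refine eq_dl (fun t ht' => ?_) h0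
      obtain ⟨b, rfl⟩ := Finset.card_eq_one.1 (hz t ht').2
      by_contra hne
      exact hno ⟨b, fun h => hne (by rw [h]), (hz _ ht').1⟩
    have h1 := bd_dl_erase (s := ({a} : Finset V)) (Finset.mem_singleton_self a)
    rw [← hz1, hb] at h1
    exact zero_ne_one h1
  refine ⟨a, b, hba.symm, fun v => ⟨fun hv => ?_, ?_⟩⟩
  · by_contra hne
    rw [not_or] at hne
    have h1 := pair a b hba.symm ha hbL
    have h2 := pair a v (Ne.symm hne.1) ha hv
    have h3 := congrFun (h1.trans h2.symm) {v}
    simp [dl, hne.1, hne.2] at h3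
  · rintro (rfl | rfl)
    · exact ha
    · exact hbL

theorem singleton_mem_link {L : Set (Finset V)} {t : Finset V} {v : V} :
    {v} ∈ link L t ↔ v ∉ t ∧ insert v t ∈ L := by
  unfold link
  rw [Set.mem_setOf_eq, Finset.disjoint_singleton_right, Finset.union_comm, Finset.insert_eq]

/-- Every ridge lies in exactly two facets. -/
theorem ridge_two {K : Set (Finset V)} {d : ℕ} (hM : HomManifold K d) {t : Finset V}
    (ht : t ∈ K) (hne : t.Nonempty) (hc : t.card = d) :
    ∃ a b : V, a ≠ b ∧ ∀ v, (v ∉ t ∧ insert v t ∈ K) ↔ v = a ∨ v = b := by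
  have h := hM t ht hne
  rw [hc, Nat.add_sub_cancel_left] at h
  obtain ⟨a, b, hab, h⟩ := h.two
  exact ⟨a, b, hab, fun v => by rw [← singleton_mem_link, h]⟩

theorem man_of {K : Set (Finset V)} {d : ℕ} (hd : 0 < d) (hK : IsComplex K)
    (hM : HomManifold K d) : Man K (d + 1) := by
  classical
  refine ⟨hK.1, ?_, hM, ?_⟩
  · intro s hs
    rcases s.eq_empty_or_nonempty with rfl | ⟨v, hv⟩
    · simp
    · have h1 := (hM {v} (hK.2 v) (Finset.singleton_nonempty v)).1 (s.erase v)
        (mem_link_single.2 ⟨Finset.notMem_erase v s, by rwa [Finset.insert_erase hv]⟩)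
      rw [Finset.card_erase_of_mem hv, Finset.card_singleton] at h1
      omega
  · funext t
    by_contra hne
    obtain ⟨v, hv, h⟩ := exists_of_bd_ne hne
    obtain ⟨h1, h2⟩ := isChain_fund K (d + 1) _ h
    rw [Finset.card_insert_of_notMem hv] at h2
    have ht : t ∈ K := hK.1 _ h1 _ (Finset.subset_insert _ _)
    have hc : t.card = d := by omega
    obtain ⟨a, b, hab, hl⟩ := ridge_two hM ht (Finset.card_pos.1 (by omega)) hc
    apply hne
    have : bd (fund K (d + 1)) t = ∑ w, if w ∈ ({a, b} : Finset V) then 1 else 0 := by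
      unfold bd fund
      refine Finset.sum_congr rfl fun w _ => ?_
      have hw := hl w
      by_cases hwt : w ∈ t
      · rw [if_pos hwt, if_neg]
        intro h'
        exact (hw.2 (by simpa using h')).1 hwt
      · rw [if_neg hwt]
        refine if_congr ?_ rfl rfl
        rw [Finset.card_insert_of_notMem hwt, Finset.mem_insert, Finset.mem_singleton, ← hw]
        constructor
        · rintro ⟨h3, -⟩; exact ⟨hwt, h3⟩
        · rintro ⟨-, h3⟩; exact ⟨h3, by omega⟩
    rw [this, Finset.sum_ite_mem, Finset.univ_inter, Finset.sum_pair hab]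
    exact z2_add_self 1

/-- A cycle on a small vertex set `W` is the boundary of a cone inside `W`. -/
theorem cycle_small {z : Finset V → ZMod 2} {W : Finset V} {k : ℕ} (hW : W.Nonempty)
    (hz : ∀ t, z t ≠ 0 → t ⊆ W ∧ t.card = k) (hb : bd z = 0) (h0 : z ≠ 0) (hk : W.card ≤ k + 1) :
    W.card = k + 1 ∧ z = bd (dl W) := by
  obtain ⟨v, hv⟩ := hW
  have h1 : z = bd (cone v z) := by
    rw [bd_cone, hb]
    funext t; simp [cone]
  have h2 : ∀ t, cone v z t ≠ 0 → t ⊆ W ∧ t.card = k + 1 := by
    intro t ht
    unfold cone at ht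
    by_cases hvt : v ∈ t
    · rw [if_pos hvt] at ht
      obtain ⟨h3, h4⟩ := hz _ ht
      rw [Finset.card_erase_of_mem hvt] at h4
      have := Finset.card_pos.2 ⟨v, hvt⟩
      refine ⟨?_, by omega⟩
      rw [← Finset.insert_erase hvt]
      exact Finset.insert_subset hv h3
    · simp [hvt] at ht
  have h3 : cone v z ≠ 0 := by
    intro h; apply h0; rw [h1, h, bd_zero]
  obtain ⟨t, ht⟩ := Function.ne_iff.1 h3
  have h4 := Finset.card_le_card (h2 t ht).1
  have h5 := (h2 t ht).2
  have h6 : W.card = k + 1 := by omega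
  refine ⟨h6, ?_⟩
  rw [h1, eq_dl (s := W) (fun t ht => Finset.eq_of_subset_of_card_le (h2 t ht).1
    (by rw [(h2 t ht).2, h6])) h3]

section Fifteen

variable {K : Set (Finset V)}

theorem compl_card (hV : Fintype.card V = 15) {σ : Finset V} (h : σ.card = 9) : σᶜ.card = 6 := by
  rw [Finset.card_compl, hV, h]

theorem sub_compl {σ t : Finset V} (h : Disjoint t σ) : t ⊆ σᶜ := by
  intro x hx
  rw [Finset.mem_compl]
  exact Finset.disjoint_left.1 h hx

/-- The complement of a facet is a missing face whose boundary represents the class `z`. -/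
theorem facet_compl (hV : Fintype.card V = 15) (h : Man K 9) {z : Finset V → ZMod 2}
    (hz : IsChain K 5 z) (hb : bd z = 0) (hn : ¬ ∃ c, IsChain K 6 c ∧ bd c = z)
    {σ : Finset V} (hσ : σ ∈ K) (hc : σ.card = 9) :
    σᶜ ∉ K ∧ IsChain (del K σ) 5 (bd (dl σᶜ)) ∧ ∃ e, IsChain K 6 e ∧ bd (dl σᶜ) = z + bd e := by
  obtain ⟨e, he, he'⟩ := h.push hσ (Finset.empty_subset σ) (k := 5) (Or.inl (by norm_num))
    (by rw [del_empty]; exact hz) (fun t ht => by rw [hb] at ht; exact absurd rfl ht)
  rw [del_empty] at he
  have h6 := compl_card hV hc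
  have h0 : z + bd e ≠ 0 := by
    intro h0
    refine hn ⟨e, he, ?_⟩
    rw [← add_zero (bd e), ← h0, add_comm z, ← add_assoc, fun_add_self, zero_add]
  obtain ⟨-, h1⟩ := cycle_small (W := σᶜ) (k := 5) (Finset.card_pos.1 (by omega))
    (fun t ht => ⟨sub_compl (he' t ht).1.2, (he' t ht).2⟩)
    (by rw [bd_add, hb, bd_bd, add_zero]) h0 (by omega)
  refine ⟨fun hW => hn ⟨dl σᶜ + e, IsChain.add (h6 ▸ isChain_dl hW) he, ?_⟩, h1 ▸ he',
    e, he, h1.symm⟩
  rw [bd_add, ← h1, add_assoc, fun_add_self, add_zero]

theorem acyc_del (hV : Fintype.card V = 15) (h : Man K 9) {τ : Finset V} (hτ : τ ∈ K)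
    (hne : τ.Nonempty) {k : ℕ} (hk : 6 ≤ k) : Acyc (del K τ) k := by
  intro y hy hb
  obtain ⟨σ, hσ, hsub, hc⟩ := h.pure hτ hne
  obtain ⟨e, he, he'⟩ := h.push hσ hsub (Or.inr hne) hy
    (fun t ht => by rw [hb] at ht; exact absurd rfl ht)
  have h6 := compl_card hV hc
  refine ⟨e, he, ?_⟩
  by_contra hne'
  have h0 : y + bd e ≠ 0 := by
    intro h0
    apply hne'
    rw [← add_zero (bd e), ← h0, add_comm y, ← add_assoc, fun_add_self, zero_add]
  have := (cycle_small (W := σᶜ) (k := k) (Finset.card_pos.1 (by omega))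
    (fun t ht => ⟨sub_compl (he' t ht).1.2, (he' t ht).2⟩)
    (by rw [bd_add, hb, bd_bd, add_zero]) h0 (by omega)).1
  omega

/-- The boundary in the first coordinate of a family of chains. -/
def D (F : Finset V → Finset V → ZMod 2) (τ : Finset V) : Finset V → ZMod 2 :=
  ∑ u, if u ∈ τ then 0 else F (insert u τ)

theorem D_D (F : Finset V → Finset V → ZMod 2) (τ : Finset V) : D (D F) τ = 0 := by
  funext B
  have h1 : ∀ (G : Finset V → Finset V → ZMod 2) (t : Finset V),
      D G t B = bd (fun s => G s B) t := by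
    intro G t
    unfold D bd
    rw [Finset.sum_apply]
    refine Finset.sum_congr rfl fun u _ => ?_
    split_ifs <;> rfl
  rw [h1]
  have h2 : (fun s => D F s B) = bd (fun s => F s B) := funext fun s => h1 F s
  rw [h2, bd_bd]; rfl

theorem exists_family (hV : Fintype.card V = 15) (h : Man K 9) {z : Finset V → ZMod 2}
    (hz : IsChain K 5 z) (hb : bd z = 0) (hn : ¬ ∃ c, IsChain K 6 c ∧ bd c = z) (j : ℕ)
    (hj : j ≤ 8) : ∃ F : Finset V → Finset V → ZMod 2,
      (∀ τ, IsChain (del K τ) (14 - τ.card) (F τ)) ∧ (∀ τ, F τ ≠ 0 → τ ∈ K ∧ 9 - j ≤ τ.card) ∧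
      (∀ σ ∈ K, σ.card = 9 → F σ = bd (dl σᶜ)) ∧ ∀ τ, 9 - j ≤ τ.card → bd (F τ) = D F τ := by
  classical
  induction j with
  | zero =>
    refine ⟨fun τ => if τ ∈ K ∧ τ.card = 9 then bd (dl τᶜ) else 0, ?_, ?_, ?_, ?_⟩
    · intro τ
      beta_reduce
      split_ifs with hτ
      · rw [hτ.2]; exact (facet_compl hV h hz hb hn hτ.1 hτ.2).2.1
      · exact isChain_zero _ _
    · intro τ hτ
      by_cases h' : τ ∈ K ∧ τ.card = 9
      · exact ⟨h'.1, by omega⟩
      · simp only [if_neg h'] at hτ; exact absurd rfl hτ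
    · intro σ hσ hc; simp only []; rw [if_pos ⟨hσ, hc⟩]
    · intro τ hτ
      have h1 : D (fun τ => if τ ∈ K ∧ τ.card = 9 then bd (dl τᶜ) else 0) τ = 0 := by
        unfold D
        refine Finset.sum_eq_zero fun u _ => ?_
        by_cases hu : u ∈ τ
        · rw [if_pos hu]
        · rw [if_neg hu]
          beta_reduce
          rw [if_neg]
          rw [Finset.card_insert_of_notMem hu]
          omega
      rw [h1]
      beta_reduce
      split_ifs
      · exact bd_bd _
      · exact bd_zero
  | succ j ih =>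
    obtain ⟨F, hF1, hF2, hF3, hF4⟩ := ih (by omega)
    have hD : ∀ τ, τ.card = 8 - j → IsChain (del K τ) (5 + j) (D F τ) := by
      intro τ hτ
      refine isChain_sum _ _ fun u _ => ?_
      split_ifs with hu
      · exact isChain_zero _ _
      · have := hF1 (insert u τ)
        rw [Finset.card_insert_of_notMem hu] at this
        have e : 14 - (τ.card + 1) = 5 + j := by omega
        rw [e] at this
        exact this.mono (del_anti K (Finset.subset_insert _ _))
    have hex : ∀ τ, τ ∈ K → τ.card = 8 - j →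
        ∃ c, IsChain (del K τ) (5 + j + 1) c ∧ bd c = D F τ := by
      intro τ hτ hc
      have hne : τ.Nonempty := Finset.card_pos.1 (by omega)
      rcases Nat.eq_zero_or_pos j with rfl | hj0
      · have h1 : ∀ u, ∃ e, IsChain K 6 e ∧ (if u ∈ τ then 0 else F (insert u τ)) =
            (if u ∈ τ then 0 else fund K 9 (insert u τ)) • z + bd e := by
          intro u
          by_cases hu : u ∈ τ
          · exact ⟨0, isChain_zero _ _, by simp [hu, bd_zero]⟩
          · have hc9 : (insert u τ).card = 9 := by
              rw [Finset.card_insert_of_notMem hu]; omega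
            rw [if_neg hu, if_neg hu]
            by_cases hK : insert u τ ∈ K
            · obtain ⟨e, he, he'⟩ := (facet_compl hV h hz hb hn hK hc9).2.2
              refine ⟨e, he, ?_⟩
              rw [hF3 _ hK hc9, he']
              simp only [fund]
              rw [if_pos ⟨hK, hc9⟩, one_smul]
            · refine ⟨0, isChain_zero _ _, ?_⟩
              have : F (insert u τ) = 0 := by
                by_contra hne'; exact hK (hF2 _ hne').1
              simp only [fund]
              rw [this, if_neg (fun h' => hK h'.1), zero_smul, bd_zero, add_zero]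
        choose e he he' using h1
        have h2 : D F τ = bd (∑ u, e u) := by
          unfold D
          rw [Finset.sum_congr rfl fun u _ => he' u, Finset.sum_add_distrib, ← Finset.sum_smul,
            bd_sum]
          have : (∑ u, if u ∈ τ then 0 else fund K 9 (insert u τ)) = 0 := congrFun h.fc τ
          rw [this, zero_smul, zero_add]
        obtain ⟨c', hc', hb'⟩ := h.push2 hτ (isChain_sum Finset.univ e fun u _ => he u)
          (fun t ht => (hD τ hc t (by rwa [h2])).1.2)
        exact ⟨c', hc', hb'.trans h2.symm⟩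
      · refine acyc_del hV h hτ hne (by omega) _ (hD τ hc) ?_
        have h1 : bd (D F τ) = D (D F) τ := by
          unfold D
          rw [bd_sum]
          refine Finset.sum_congr rfl fun u _ => ?_
          split_ifs with hu
          · exact bd_zero
          · refine hF4 _ ?_
            rw [Finset.card_insert_of_notMem hu]; omega
        rw [h1, D_D]
    choose! c hc hc' using hex
    have hDeq : ∀ τ, 8 - j ≤ τ.card →
        D (fun τ => if τ ∈ K ∧ τ.card = 8 - j then c τ else F τ) τ = D F τ := by
      intro τ hτ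
      unfold D
      refine Finset.sum_congr rfl fun u _ => ?_
      by_cases hu : u ∈ τ
      · rw [if_pos hu, if_pos hu]
      · rw [if_neg hu, if_neg hu]
        beta_reduce
        rw [if_neg]
        rw [Finset.card_insert_of_notMem hu]
        omega
    refine ⟨fun τ => if τ ∈ K ∧ τ.card = 8 - j then c τ else F τ, ?_, ?_, ?_, ?_⟩
    · intro τ
      beta_reduce
      split_ifs with hτ
      · have e : 14 - τ.card = 5 + j + 1 := by omega
        rw [e]; exact hc τ hτ.1 hτ.2
      · exact hF1 τ
    · intro τ hτ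
      by_cases h' : τ ∈ K ∧ τ.card = 8 - j
      · exact ⟨h'.1, by omega⟩
      · simp only [if_neg h'] at hτ
        exact ⟨(hF2 τ hτ).1, by have := (hF2 τ hτ).2; omega⟩
    · intro σ hσ hc9
      simp only []
      rw [if_neg (by omega), hF3 σ hσ hc9]
    · intro τ hτ
      rw [hDeq τ (by omega)]
      beta_reduce
      split_ifs with h'
      · exact hc' τ h'.1 h'.2
      · by_cases hcard : 9 - j ≤ τ.card
        · exact hF4 τ hcard
        · have hτK : τ ∉ K := fun hK => h' ⟨hK, by omega⟩
          have h1 : F τ = 0 := by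
            by_contra hne; exact hτK (hF2 τ hne).1
          rw [h1, bd_zero]
          unfold D
          refine (Finset.sum_eq_zero fun u _ => ?_).symm
          split_ifs with hu
          · rfl
          · by_contra hne
            exact hτK (h.down _ (hF2 _ hne).1 _ (Finset.subset_insert _ _))

end Fifteen

end HP15
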