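import Mathlib

/-!
Definitions for MP_29b816_gt: simplicial complexes on a finite vertex set, simplicial chains with
coefficients in `ZMod 2`, homology manifolds and distinguished triples.
A complex is a set of finite vertex sets; a simplex with `k` vertices has dimension `k - 1`.
-/

namespace HP15

open Finset

variable {V : Type*} [Fintype V] [DecidableEq V]

/-- The simplicial boundary over `ZMod 2` (augmented: the empty simplex is allowed). A chain is
the function that gives the coefficient of each simplex. -/
def bd (c : Finset V → ZMod 2) (t : Finset V) : ZMod 2 :=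
  ∑ v, if v ∈ t then 0 else c (insert v t)

/-- `c` is a chain of the complex `L` made of simplices with `k` vertices. -/
def IsChain (L : Set (Finset V)) (k : ℕ) (c : Finset V → ZMod 2) : Prop :=
  ∀ s, c s ≠ 0 → s ∈ L ∧ s.card = k

/-- The reduced homology of `L` over `ZMod 2` vanishes in dimension `k - 1`. -/
def Acyc (L : Set (Finset V)) (k : ℕ) : Prop :=
  ∀ z, IsChain L k z → bd z = 0 → ∃ c, IsChain L (k + 1) c ∧ bd c = z

/-- `L` has dimension at most `n - 1` and the reduced `ZMod 2` homology of the sphere of dimension
`n - 1`: zero in the other dimensions, exactly one nonzero cycle in the top dimension. -/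
def HomSphere (L : Set (Finset V)) (n : ℕ) : Prop :=
  (∀ s ∈ L, s.card ≤ n) ∧ (∀ k, k ≠ n → Acyc L k) ∧ ∃! z, IsChain L n z ∧ bd z = 0 ∧ z ≠ 0

/-- The link of the simplex `s` in `K`. -/
def link (K : Set (Finset V)) (s : Finset V) : Set (Finset V) :=
  {t | Disjoint s t ∧ s ∪ t ∈ K}

/-- `K` is a simplicial complex with vertex set `V`. -/
def IsComplex (K : Set (Finset V)) : Prop :=
  (∀ s ∈ K, ∀ t, t ⊆ s → t ∈ K) ∧ ∀ v, {v} ∈ K

/-- `K` is a closed `ZMod 2` homology manifold of dimension `d`: the link of every simplex with
`j ≥ 1` vertices has the dimension and the homology of the sphere of dimension `d - j`. -/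
def HomManifold (K : Set (Finset V)) (d : ℕ) : Prop :=
  ∀ s ∈ K, s.Nonempty → HomSphere (link K s) (d + 1 - s.card)

/-- The boundary complex of the simplex `s`: its proper faces. -/
def bdry (s : Finset V) : Set (Finset V) := {t | t ⊂ s}

/-- A distinguished triple: three 4-simplices of `K` that partition the vertex set, the link of
each being the boundary of the next. -/
def Distinguished (K : Set (Finset V)) (A B C : Finset V) : Prop :=
  A ∈ K ∧ B ∈ K ∧ C ∈ K ∧ A.card = 5 ∧ B.card = 5 ∧ C.card = 5 ∧
    Disjoint A B ∧ Disjoint B C ∧ Disjoint C A ∧ A ∪ B ∪ C = univ ∧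
    link K A = bdry B ∧ link K B = bdry C ∧ link K C = bdry A

end HP15
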