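import Pool.Agent.P.MP_29b816_gt.T.Local

/-! The part of Poincare duality that is needed: vanishing in dimension `8 - i` gives vanishing
in dimension `i`. -/

namespace HP15

open Finset

variable {V : Type*} [Fintype V] [DecidableEq V] {K : Set (Finset V)}

theorem bd_smul (a : ZMod 2) (c : Finset V → ZMod 2) : bd (a • c) = a • bd c := by
  funext t
  simp only [bd, Pi.smul_apply, smul_eq_mul, Finset.mul_sum]
  refine Finset.sum_congr rfl fun v _ => ?_
  split_ifs <;> simp

theorem IsChain.smul {L : Set (Finset V)} {k : ℕ} {c : Finset V → ZMod 2} (a : ZMod 2)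
    (hc : IsChain L k c) : IsChain L k (a • c) := by
  intro s hs
  apply hc s
  intro h; apply hs; simp [h]

theorem bd_dl (τ : Finset V) : bd (dl τ) = ∑ v ∈ τ, dl (τ.erase v) := by
  funext t
  rw [Finset.sum_apply]
  by_cases h : ∃ v ∈ τ, t = τ.erase v
  · obtain ⟨v, hv, rfl⟩ := h
    rw [bd_dl_erase hv, Finset.sum_eq_single v]
    · simp [dl]
    · intro w hw hwv
      unfold dl
      rw [if_neg]
      intro he
      have : w ∈ τ.erase v := Finset.mem_erase.2 ⟨hwv, hw⟩
      rw [he] at this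
      exact Finset.notMem_erase w τ this
    · intro h; exact absurd hv h
  · have h1 : bd (dl τ) t = 0 := by
      by_contra hne; exact h (bd_dl_ne hne)
    rw [h1]
    refine (Finset.sum_eq_zero fun v hv => ?_).symm
    unfold dl
    rw [if_neg]
    intro he; exact h ⟨v, hv, he⟩

theorem eq_sum_dl (c : Finset V → ZMod 2) : c = ∑ s, c s • dl s := by
  funext t
  rw [Finset.sum_apply, Finset.sum_eq_single t]
  · simp [dl]
  · intro s _ hs; simp [dl, hs.symm]
  · intro h; exact absurd (Finset.mem_univ t) h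

/-- Vanishing of homology gives vanishing of cohomology. -/
theorem cohom_zero {L : Set (Finset V)} {j : ℕ} (hL : Acyc L j) {φ : Finset V → ZMod 2}
    (hφ : ∀ τ ∈ L, τ.card = j + 1 → ∑ v ∈ τ, φ (τ.erase v) = 0) :
    ∃ ψ : Finset V → ZMod 2, ∀ τ ∈ L, τ.card = j → ∑ v ∈ τ, ψ (τ.erase v) = φ τ := by
  let bdL : (Finset V → ZMod 2) →ₗ[ZMod 2] (Finset V → ZMod 2) :=
    { toFun := bd, map_add' := bd_add, map_smul' := bd_smul }
  let C : Submodule (ZMod 2) (Finset V → ZMod 2) :=
    { carrier := {c | IsChain L j c}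
      add_mem' := fun ha hb => IsChain.add ha hb
      zero_mem' := isChain_zero L j
      smul_mem' := fun a _ hc => IsChain.smul a hc }
  let Φ : (Finset V → ZMod 2) →ₗ[ZMod 2] ZMod 2 := Fintype.linearCombination (ZMod 2) φ
  have hΦ : ∀ s, Φ (dl s) = φ s := by
    intro s
    simp [Φ, Fintype.linearCombination_apply, dl]
  have hker : Φ.comp C.subtype ∈ (LinearMap.ker (bdL.comp C.subtype)).dualAnnihilator := by
    rw [Submodule.mem_dualAnnihilator]
    intro z hz
    obtain ⟨c, hc, hbc⟩ := hL z.1 z.2 hz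
    change Φ z.1 = 0
    rw [← hbc, eq_sum_dl c, bd_sum, map_sum]
    refine Finset.sum_eq_zero fun s _ => ?_
    rw [bd_smul, map_smul]
    by_cases hs : c s = 0
    · rw [hs, zero_smul]
    · rw [bd_dl, map_sum, Finset.sum_congr rfl fun v _ => hΦ (s.erase v),
        hφ s (hc s hs).1 (hc s hs).2, smul_zero]
  rw [← LinearMap.range_dualMap_eq_dualAnnihilator_ker] at hker
  obtain ⟨Ψ, hΨ⟩ := hker
  refine ⟨fun s => Ψ (dl s), fun τ hτ hc => ?_⟩
  have h1 : Ψ (bd (dl τ)) = Φ (dl τ) :=
    LinearMap.congr_fun hΨ ⟨dl τ, (hc ▸ isChain_dl hτ : IsChain L j (dl τ))⟩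
  rw [← hΦ, ← h1, bd_dl, map_sum]

/-- The second differential of the double complex of pairs (face, simplex of its link). -/
def d2 (G : Finset V → Finset V → ZMod 2) (τ : Finset V) : Finset V → ZMod 2 :=
  ∑ v ∈ τ, res v (G (τ.erase v))

/-- `G` lives on faces with `p` vertices and is a chain with `k` vertices in each link. -/
def Lev (K : Set (Finset V)) (p k : ℕ) (G : Finset V → Finset V → ZMod 2) : Prop :=
  ∀ τ ρ, G τ ρ ≠ 0 → τ.card = p ∧ ρ ∈ link K τ ∧ ρ.card = k

theorem Lev.chain {p k : ℕ} {G : Finset V → Finset V → ZMod 2} (h : Lev K p k G) (τ : Finset V) :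
    IsChain (link K τ) k (G τ) := fun ρ hρ => (h τ ρ hρ).2

theorem d2_apply (G : Finset V → Finset V → ZMod 2) (τ ρ : Finset V) :
    d2 G τ ρ = ∑ v ∈ τ, if v ∈ ρ then 0 else G (τ.erase v) (insert v ρ) := by
  unfold d2
  rw [Finset.sum_apply]; rfl

theorem d2_add (G H : Finset V → Finset V → ZMod 2) : d2 (G + H) = d2 G + d2 H := by
  funext τ
  simp only [d2, Pi.add_apply, res_add, Finset.sum_add_distrib]

theorem bd_d2 (G : Finset V → Finset V → ZMod 2) (τ : Finset V) :
    bd (d2 G τ) = d2 (fun τ => bd (G τ)) τ := by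
  unfold d2
  rw [bd_sum]
  exact Finset.sum_congr rfl fun v _ => bd_res v _

theorem d2_d2 (G : Finset V → Finset V → ZMod 2) : d2 (d2 G) = 0 := by
  funext τ ρ
  have : d2 (d2 G) τ ρ = ∑ v, ∑ w, if v ∈ τ ∧ w ∈ τ ∧ v ∉ ρ ∧ w ∉ ρ ∧ w ≠ v then
      G ((τ.erase v).erase w) (insert w (insert v ρ)) else 0 := by
    rw [d2_apply, ← Finset.univ_inter τ, ← Finset.sum_ite_mem, Finset.univ_inter]
    refine Finset.sum_congr rfl fun v _ => ?_
    by_cases hv : v ∈ τ
    · by_cases hv' : v ∈ ρ
      · simp [hv']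
      · rw [if_pos hv, if_neg hv', d2_apply, ← Finset.univ_inter (τ.erase v),
          ← Finset.sum_ite_mem, Finset.univ_inter]
        refine Finset.sum_congr rfl fun w _ => ?_
        by_cases hw : w ∈ τ <;> by_cases hw' : w ∈ ρ <;> by_cases hwv : w = v <;>
          simp [hv, hv', hw, hw', hwv]
    · simp [hv]
  rw [this]
  refine sum_symm_zero z2_add_self _ ?_ ?_
  · intro v w
    rw [Finset.insert_comm w v ρ, Finset.erase_right_comm]
    refine if_congr ?_ rfl rfl
    constructor
    · rintro ⟨a, b, c, d, e⟩; exact ⟨b, a, d, c, e.symm⟩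
    · rintro ⟨a, b, c, d, e⟩; exact ⟨b, a, d, c, e.symm⟩
  · intro v; simp

theorem Lev.d2 {p k : ℕ} {G : Finset V → Finset V → ZMod 2} (h : Lev K p (k + 1) G) :
    Lev K (p + 1) k (d2 G) := by
  intro τ ρ hne
  rw [d2_apply] at hne
  obtain ⟨v, hv, h1⟩ := Finset.exists_ne_zero_of_sum_ne_zero hne
  have hvρ : v ∉ ρ := fun h' => h1 (if_pos h')
  rw [if_neg hvρ] at h1
  obtain ⟨h2, ⟨h3, h4⟩, h5⟩ := h _ _ h1
  rw [Finset.card_erase_of_mem hv] at h2
  rw [Finset.card_insert_of_notMem hvρ] at h5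
  have := Finset.card_pos.2 ⟨v, hv⟩
  refine ⟨by omega, ⟨?_, ?_⟩, by omega⟩
  · rw [← Finset.insert_erase hv, Finset.disjoint_insert_left]
    exact ⟨hvρ, Finset.disjoint_of_subset_right (Finset.subset_insert _ _) h3⟩
  · rwa [Finset.union_insert, ← Finset.insert_union, Finset.insert_erase hv] at h4

/-- The rows of the double complex are exact. -/
theorem row_exact {p k : ℕ} {G : Finset V → Finset V → ZMod 2} (h : Lev K (p + 1) k G)
    (h0 : d2 G = 0) : ∃ E, Lev K p (k + 1) E ∧ d2 E = G := by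
  classical
  by_cases hV : Nonempty V
  swap
  · refine ⟨0, fun _ _ h => absurd rfl h, ?_⟩
    funext τ ρ
    have h1 : G τ ρ = 0 := by
      by_contra hne
      obtain ⟨v, -⟩ : τ.Nonempty := Finset.card_pos.1 (by rw [(h _ _ hne).1]; omega)
      exact hV ⟨v⟩
    rw [h1, d2_apply]; simp
  have hm : ∀ σ : Finset V, ∃ m, σ.Nonempty → m ∈ σ := by
    intro σ
    rcases σ.eq_empty_or_nonempty with rfl | ⟨m, hm⟩
    · exact ⟨hV.some, fun h => absurd h Finset.not_nonempty_empty⟩
    · exact ⟨m, fun _ => hm⟩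
  choose m hm using hm
  refine ⟨fun τ ρ => if m (τ ∪ ρ) ∈ ρ ∧ m (τ ∪ ρ) ∉ τ then
    G (insert (m (τ ∪ ρ)) τ) (ρ.erase (m (τ ∪ ρ))) else 0, ?_, ?_⟩
  · intro τ ρ hne
    beta_reduce at hne
    have h1 : m (τ ∪ ρ) ∈ ρ ∧ m (τ ∪ ρ) ∉ τ := by
      by_contra h'; exact hne (if_neg h')
    rw [if_pos h1] at hne
    obtain ⟨h2, ⟨h3, h4⟩, h5⟩ := h _ _ hne
    rw [Finset.card_insert_of_notMem h1.2] at h2
    rw [Finset.card_erase_of_mem h1.1] at h5
    have := Finset.card_pos.2 ⟨_, h1.1⟩
    refine ⟨by omega, ⟨?_, ?_⟩, by omega⟩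
    · rw [← Finset.insert_erase h1.1, Finset.disjoint_insert_right]
      exact ⟨h1.2, Finset.disjoint_of_subset_left (Finset.subset_insert _ _) h3⟩
    · rwa [Finset.insert_union, ← Finset.union_insert, Finset.insert_erase h1.1] at h4
  · funext τ ρ
    rw [d2_apply]
    have hσ : ∀ v ∈ τ, τ.erase v ∪ insert v ρ = τ ∪ ρ := fun v hv => by
      rw [Finset.union_insert, ← Finset.insert_union, Finset.insert_erase hv]
    by_cases hd : Disjoint τ ρ
    swap
    · have h1 : G τ ρ = 0 := by
        by_contra hne; exact hd (h _ _ hne).2.1.1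
      rw [h1]
      refine Finset.sum_eq_zero fun v hv => ?_
      split_ifs with h2 h3
      · rfl
      · by_contra hne
        apply hd
        have h4 := (h _ _ hne).2.1.1
        rw [Finset.disjoint_left] at h4 ⊢
        intro x hx hx'
        have hxv : x ≠ v := fun e => h2 (e ▸ hx')
        have hx1 : x ∈ τ.erase v := Finset.mem_erase.2 ⟨hxv, hx⟩
        refine h4 (Finset.mem_insert_of_mem hx1) (Finset.mem_erase.2
          ⟨fun e => h3.2 (e ▸ hx1), Finset.mem_insert_of_mem hx'⟩)
      · rfl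
    rcases τ.eq_empty_or_nonempty with rfl | hne
    · rw [Finset.sum_empty]
      by_contra hne
      have := (h _ _ (Ne.symm hne)).1
      simp at this
    have hmem := hm (τ ∪ ρ) (hne.mono Finset.subset_union_left)
    have hd' := Finset.disjoint_left.1 hd
    rw [Finset.sum_congr rfl (g := fun v => if m (τ ∪ ρ) ∈ insert v ρ ∧ m (τ ∪ ρ) ∉ τ.erase v then
      G (insert (m (τ ∪ ρ)) (τ.erase v)) ((insert v ρ).erase (m (τ ∪ ρ))) else 0)
      (fun v hv => by rw [if_neg (hd' hv), hσ v hv])]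
    generalize m (τ ∪ ρ) = a at hmem
    by_cases ha : a ∈ τ
    · rw [Finset.sum_eq_single a]
      · rw [if_pos ⟨Finset.mem_insert_self _ _, Finset.notMem_erase _ _⟩, Finset.insert_erase ha,
          Finset.erase_insert (hd' ha)]
      · intro v _ hva
        rw [if_neg]
        intro h'; exact h'.2 (Finset.mem_erase.2 ⟨hva.symm, ha⟩)
      · intro h'; exact absurd ha h'
    · have haρ : a ∈ ρ := (Finset.mem_union.1 hmem).resolve_left ha
      have h1 := congrFun (congrFun h0 (insert a τ)) (ρ.erase a)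
      rw [d2_apply, Finset.sum_insert ha, if_neg (Finset.notMem_erase a ρ),
        Finset.erase_insert ha, Finset.insert_erase haρ] at h1
      have h2 : ∀ x y : ZMod 2, x + y = 0 → y = x := by decide
      rw [← h2 _ _ h1]
      refine Finset.sum_congr rfl fun v hv => ?_
      have hva : v ≠ a := fun e => ha (e ▸ hv)
      rw [if_pos ⟨Finset.mem_insert_of_mem haρ, fun h' => ha (Finset.mem_of_mem_erase h')⟩,
        if_neg (fun h' => hd' hv (Finset.mem_of_mem_erase h')),
        Finset.erase_insert_of_ne hva.symm, Finset.erase_insert_of_ne hva]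

theorem res_smul (v : V) (a : ZMod 2) (c : Finset V → ZMod 2) : res v (a • c) = a • res v c := by
  funext t; unfold res; split_ifs with h <;> simp [h]

theorem res_fund_link {τ : Finset V} {v : V} (hv : v ∈ τ) (k : ℕ) :
    res v (fund (link K (τ.erase v)) (k + 1)) = fund (link K τ) k := by
  rw [res_fund, link_link K (Finset.disjoint_singleton_right.2 (Finset.notMem_erase v τ)),
    Finset.union_comm, ← Finset.insert_eq, Finset.insert_erase hv]

theorem mem_of_link (hK : ∀ s ∈ K, ∀ t, t ⊆ s → t ∈ K) {τ ρ : Finset V} (h : ρ ∈ link K τ) :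
    τ ∈ K := hK _ h.2 _ Finset.subset_union_left

theorem zig_top {n p k : ℕ} (h : Man K n) (hn : p + (k + 2) = n) (hA : Acyc K (p + 1))
    {G : Finset V → Finset V → ZMod 2} (hG : Lev K p (k + 2) G) (hb : ∀ τ, bd (d2 G τ) = 0) :
    ∃ G', Lev K p (k + 2) G' ∧ (∀ τ, bd (G' τ) = bd (G τ)) ∧ d2 G' = 0 := by
  classical
  have h1 : ∀ τ, ∃ a : ZMod 2, d2 G τ = a • fund (link K τ) (k + 1) := by
    intro τ
    by_cases h0 : d2 G τ = 0
    · exact ⟨0, by rw [h0, zero_smul]⟩
    · obtain ⟨ρ, hρ⟩ := Function.ne_iff.1 h0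
      obtain ⟨h2, h3, -⟩ := hG.d2 τ ρ hρ
      have hτ := mem_of_link h.down h3
      have e : n - τ.card = k + 1 := by omega
      have h4 := h.link τ hτ
      have h5 := h.lk τ hτ (Finset.card_pos.1 (by omega))
      rw [e] at h4 h5
      exact ⟨1, by rw [one_smul]; exact fund_eq_of_sphere h4 h5 (hG.d2.chain τ) (hb τ) h0⟩
  choose φ hφ using h1
  obtain ⟨ψ, hψ⟩ := cohom_zero hA (φ := φ) (by
    intro τ hτ hc
    have h2 : d2 (d2 G) τ = (∑ v ∈ τ, φ (τ.erase v)) • fund (link K τ) k := by
      rw [Finset.sum_smul]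
      unfold d2
      refine Finset.sum_congr rfl fun v hv => ?_
      have := hφ (τ.erase v)
      unfold d2 at this
      rw [this, res_smul, res_fund_link hv]
    rw [d2_d2] at h2
    obtain ⟨z, ⟨hz, -, hz0⟩, -⟩ := (h.lk τ hτ (Finset.card_pos.1 (by omega))).2.2
    obtain ⟨t, ht⟩ := Function.ne_iff.1 hz0
    have h3 := congrFun h2 t
    simp only [Pi.zero_apply, Pi.smul_apply, fund, smul_eq_mul] at h3
    rw [if_pos ⟨(hz t ht).1, by rw [(hz t ht).2]; omega⟩, mul_one] at h3
    exact h3.symm)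
  have hl : Lev K p (k + 2)
      (fun τ => if τ.card = p then ψ τ • fund (link K τ) (k + 2) else 0) := by
    intro τ ρ hne
    beta_reduce at hne
    by_cases hc : τ.card = p
    · rw [if_pos hc] at hne
      exact ⟨hc, (isChain_fund _ _).smul _ ρ hne⟩
    · rw [if_neg hc] at hne; exact absurd rfl hne
  refine ⟨G + fun τ => if τ.card = p then ψ τ • fund (link K τ) (k + 2) else 0, ?_, ?_, ?_⟩
  · intro τ ρ hne
    by_cases h0 : G τ ρ = 0
    · refine hl τ ρ fun h' => hne ?_
      rw [Pi.add_apply, Pi.add_apply, h0, zero_add]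
      exact h'
    · exact hG τ ρ h0
  · intro τ
    rw [Pi.add_apply, bd_add]
    beta_reduce
    split_ifs with hc
    · by_cases hτ : τ ∈ K
      · have h4 := (h.link τ hτ).fc
        have e : n - τ.card = k + 2 := by omega
        rw [e] at h4
        rw [bd_smul, h4, smul_zero, add_zero]
      · have : fund (link K τ) (k + 2) = 0 := by
          funext t
          by_contra hne
          exact hτ (mem_of_link h.down (isChain_fund _ _ t hne).1)
        rw [this, smul_zero, bd_zero, add_zero]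
    · rw [bd_zero, add_zero]
  · rw [d2_add]
    funext τ
    by_cases hτ : τ ∈ K ∧ τ.card = p + 1
    · have h2 : d2 (fun τ => if τ.card = p then ψ τ • fund (link K τ) (k + 2) else 0) τ =
          φ τ • fund (link K τ) (k + 1) := by
        rw [← hψ τ hτ.1 hτ.2, Finset.sum_smul]
        unfold d2
        refine Finset.sum_congr rfl fun v hv => ?_
        beta_reduce
        rw [if_pos (by rw [Finset.card_erase_of_mem hv, hτ.2]; rfl), res_smul, res_fund_link hv]
      rw [Pi.add_apply, h2, hφ τ, fun_add_self]; rfl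
    · have key : ∀ H, Lev K p (k + 2) H → d2 H τ = 0 := by
        intro H hH
        funext ρ
        by_contra hne
        obtain ⟨h2, h3, -⟩ := hH.d2 τ ρ hne
        exact hτ ⟨mem_of_link h.down h3, h2⟩
      rw [Pi.add_apply, key _ hG, key _ hl, add_zero]; rfl

theorem zig_step {n p k : ℕ} (h : Man K n) (hn : p + (k + 1) < n)
    (ih : ∀ G, Lev K (p + 1) (k + 1) G → (∀ τ, bd (d2 G τ) = 0) →
      ∃ G', Lev K (p + 1) (k + 1) G' ∧ (∀ τ, bd (G' τ) = bd (G τ)) ∧ d2 G' = 0)
    {G : Finset V → Finset V → ZMod 2} (hG : Lev K p (k + 1) G) (hb : ∀ τ, bd (d2 G τ) = 0) :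
    ∃ E, Lev K p (k + 2) E ∧ d2 (G + fun τ => bd (E τ)) = 0 := by
  have h1 : ∀ τ, ∃ c, (∀ ρ, c ρ ≠ 0 → τ.card = p + 1 ∧ ρ ∈ link K τ ∧ ρ.card = k + 1) ∧
      bd c = d2 G τ := by
    intro τ
    by_cases h0 : d2 G τ = 0
    · exact ⟨0, fun _ h => absurd rfl h, by rw [h0, bd_zero]⟩
    · obtain ⟨ρ, hρ⟩ := Function.ne_iff.1 h0
      obtain ⟨h2, h3, -⟩ := hG.d2 τ ρ hρ
      obtain ⟨c, hc, hc'⟩ := (h.lk τ (mem_of_link h.down h3)
        (Finset.card_pos.1 (by omega))).2.1 k (by omega) _ (hG.d2.chain τ) (hb τ)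
      exact ⟨c, fun ρ hρ => ⟨h2, hc ρ hρ⟩, hc'⟩
  choose G1 hG1 hb1 using h1
  obtain ⟨G2, hG2, hb2, h0⟩ := ih G1 hG1 (fun τ => by
    rw [bd_d2, show (fun τ => bd (G1 τ)) = d2 G from funext hb1, d2_d2]; rfl)
  obtain ⟨E, hE, hE'⟩ := row_exact hG2 h0
  refine ⟨E, hE, ?_⟩
  rw [d2_add]
  funext τ
  rw [Pi.add_apply, ← bd_d2, hE', hb2, hb1, fun_add_self]; rfl

theorem zig {n k : ℕ} (h : Man K n) (hA : Acyc K (n - (k + 2) + 1)) (m : ℕ) :
    ∀ p, p + (k + 2) + m = n → ∀ G, Lev K p (k + 2) G → (∀ τ, bd (d2 G τ) = 0) →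
      ∃ G', Lev K p (k + 2) G' ∧ (∀ τ, bd (G' τ) = bd (G τ)) ∧ d2 G' = 0 := by
  induction m with
  | zero =>
    intro p hp G hG hb
    have e : n - (k + 2) = p := by omega
    rw [e] at hA
    exact zig_top h (by omega) hA hG hb
  | succ m ih =>
    intro p hp G hG hb
    obtain ⟨E, hE, h0⟩ := zig_step (k := k + 1) h (by omega) (ih (p + 1) (by omega)) hG hb
    refine ⟨_, ?_, fun τ => by rw [Pi.add_apply, bd_add, bd_bd, add_zero], h0⟩
    intro τ ρ hne
    by_cases h1 : G τ ρ = 0
    · have h2 : bd (E τ) ρ ≠ 0 := fun h' => hne (by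
        rw [Pi.add_apply, Pi.add_apply, h1, h', add_zero])
      obtain ⟨v, -, hv⟩ := exists_of_bd_ne h2
      exact ⟨(hE _ _ hv).1, (hE.chain τ).bd (link_down h.down τ) ρ h2⟩
    · exact hG τ ρ h1

/-- Duality: vanishing for `n + 1 - k` vertices gives vanishing for `k` vertices. -/
theorem acyc_dual {n k : ℕ} (h : Man K n) (hk : k + 2 < n) (hA : Acyc K (n - (k + 2) + 1)) :
    Acyc K (k + 2) := by
  intro z hz hb
  have hG : Lev K 0 (k + 2) (fun τ => if τ = ∅ then z else 0) := by
    intro τ ρ hne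
    beta_reduce at hne
    by_cases hτ : τ = ∅
    · subst hτ
      rw [if_pos rfl] at hne
      exact ⟨rfl, by rw [link_empty]; exact (hz ρ hne).1, (hz ρ hne).2⟩
    · rw [if_neg hτ] at hne; exact absurd rfl hne
  obtain ⟨E, hE, h0⟩ := zig_step (k := k + 1) h (by omega)
    (zig h hA (n - (k + 3)) 1 (by omega)) hG (fun τ => by
      rw [bd_d2]
      have : (fun τ : Finset V => bd (if τ = ∅ then z else 0)) = 0 := by
        funext τ; split_ifs
        · exact hb
        · exact bd_zero
      rw [this]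
      funext ρ; rw [d2_apply]; simp)
  have hc : IsChain K (k + 2 + 1) (E ∅) := by
    have := hE.chain ∅
    rwa [link_empty] at this
  refine ⟨E ∅, hc, ?_⟩
  funext ρ
  have h2 : ∀ x y : ZMod 2, x + y = 0 → y = x := by decide
  apply h2
  by_contra hne
  have hch : IsChain K (k + 2) (z + bd (E ∅)) := hz.add (hc.bd h.down)
  obtain ⟨v, hv⟩ : ρ.Nonempty := Finset.card_pos.1 (by rw [(hch ρ hne).2]; omega)
  have h1 := congrFun (congrFun h0 {v}) (ρ.erase v)
  rw [d2_apply, Finset.sum_singleton, if_neg (Finset.notMem_erase v ρ), Finset.insert_erase hv,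
    Finset.erase_singleton] at h1
  exact hne (by simpa using h1)

theorem acyc_one (hV : Fintype.card V = 15) (h : Man K 9) (hv : ∀ v, {v} ∈ K) : Acyc K 1 := by
  have star : ∀ u, ∃ S : Finset V, S.card = 10 ∧ ∀ w ∈ S, {u, w} ∈ K := by
    intro u
    obtain ⟨σ, hσ, hu, hc⟩ := h.pure (hv u) (Finset.singleton_nonempty u)
    obtain ⟨y, a, b, hy, ha, hb, hab, h1, h2⟩ := exists_three hV h hσ hc
    have hu' := Finset.singleton_subset_iff.1 hu
    refine ⟨insert y σ, by rw [Finset.card_insert_of_notMem hy, hc], fun w hw => ?_⟩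
    rcases Finset.mem_insert.1 hw with rfl | hw
    · have key : ∀ a, u ≠ a → insert w (σ.erase a) ∈ K → {u, w} ∈ K := fun a hua h1 =>
        h.down _ h1 _ (Finset.insert_subset
          (Finset.mem_insert_of_mem (Finset.mem_erase.2 ⟨hua, hu'⟩))
          (Finset.singleton_subset_iff.2 (Finset.mem_insert_self _ _)))
      by_cases hua : u = a
      · exact key b (fun e => hab (hua.symm.trans e)) h2
      · exact key a hua h1
    · exact h.down _ hσ _ (Finset.insert_subset hu' (Finset.singleton_subset_iff.2 hw))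
  have edge : ∀ u w, {u, w} ∈ K → ∃ c, IsChain K 2 c ∧ bd c = dl {u} + dl {w} := by
    intro u w huw
    by_cases e : u = w
    · exact ⟨0, isChain_zero _ _, by rw [bd_zero, e, fun_add_self]⟩
    · refine ⟨dl {u, w}, Finset.card_pair e ▸ isChain_dl huw, ?_⟩
      rw [bd_dl, Finset.sum_pair e, Finset.erase_insert (by simpa using e),
        Finset.pair_comm, Finset.erase_insert (by simpa using Ne.symm e), add_comm]
  have conn : ∀ u v, ∃ c, IsChain K 2 c ∧ bd c = dl {u} + dl {v} := by
    intro u v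
    obtain ⟨S, hS, hS'⟩ := star u
    obtain ⟨T, hT, hT'⟩ := star v
    obtain ⟨w, hw⟩ : (S ∩ T).Nonempty := by
      have h1 := Finset.card_union_add_card_inter S T
      have h2 := Finset.card_le_univ (S ∪ T)
      exact Finset.card_pos.1 (by omega)
    obtain ⟨c, hc, hc'⟩ := edge u w (hS' w (Finset.mem_inter.1 hw).1)
    obtain ⟨d, hd, hd'⟩ := edge v w (hT' w (Finset.mem_inter.1 hw).2)
    refine ⟨c + d, hc.add hd, ?_⟩
    rw [bd_add, hc', hd', add_add_add_comm, fun_add_self, add_zero]
  intro z hz hb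
  obtain ⟨v0⟩ : Nonempty V := Fintype.card_pos_iff.1 (by omega)
  choose c hc hc' using conn
  refine ⟨∑ u, z {u} • c u v0, isChain_sum _ _ fun u _ => (hc u v0).smul _, ?_⟩
  have h0 : ∑ u, z {u} = 0 := by
    have := congrFun hb ∅
    simpa [bd] using this
  rw [bd_sum, Finset.sum_congr rfl fun u _ => by rw [bd_smul, hc', smul_add],
    Finset.sum_add_distrib, ← Finset.sum_smul, h0, zero_smul, add_zero]
  funext t
  rw [Finset.sum_apply]
  by_cases ht : ∃ u, t = {u}
  · obtain ⟨u, rfl⟩ := ht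
    rw [Finset.sum_eq_single u]
    · simp [dl]
    · intro w _ hw; simp [dl, hw.symm]
    · intro h; exact absurd (Finset.mem_univ u) h
  · have h1 : z t = 0 := by
      by_contra hne; exact ht (Finset.card_eq_one.1 (hz t hne).2)
    rw [h1]
    refine Finset.sum_eq_zero fun u _ => ?_
    have : t ≠ {u} := fun e => ht ⟨u, e⟩
    simp [dl, this]

/-- A 15-vertex homology 8-manifold with vanishing `H_4` has the homology of the 8-sphere. -/
theorem homSphere_of_acyc (hV : Fintype.card V = 15) (h : Man K 9) (hv : ∀ v, {v} ∈ K)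
    (h5 : Acyc K 5) : HomSphere K 9 := by
  obtain ⟨v0⟩ : Nonempty V := Fintype.card_pos_iff.1 (by omega)
  have high : ∀ k, 6 ≤ k → k ≠ 9 → Acyc K k := by
    intro k hk hk9 z hz hb
    obtain ⟨e, he, he'⟩ := h.push (hv v0) (Finset.empty_subset _) (Or.inl hk9)
      (by rw [del_empty]; exact hz) (fun t ht => by rw [hb] at ht; exact absurd rfl ht)
    rw [del_empty] at he
    obtain ⟨c, hc, hc'⟩ := acyc_del hV h (hv v0) (Finset.singleton_nonempty v0) hk _ he'
      (by rw [bd_add, hb, bd_bd, add_zero])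
    refine ⟨c + e, (hc.mono (del_sub _ _)).add he, ?_⟩
    rw [bd_add, hc', add_assoc, fun_add_self, add_zero]
  refine ⟨h.dim, fun k hk => ?_, fund K 9, ⟨isChain_fund _ _, h.fc, ?_⟩, ?_⟩
  · by_cases h6 : 6 ≤ k
    · exact high k h6 hk
    · have hk6 : k < 6 := by omega
      interval_cases k
      · intro z hz _
        refine ⟨z ∅ • dl {v0}, (isChain_dl (hv v0)).smul _, ?_⟩
        rw [bd_smul, bd_dl, Finset.sum_singleton, Finset.erase_singleton]
        funext t
        by_cases ht : t = ∅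
        · simp [dl, ht]
        · have h1 : z t = 0 := by
            by_contra hne; exact ht (Finset.card_eq_zero.1 (hz t hne).2)
          simp [dl, ht, h1]
      · exact acyc_one hV h hv
      · exact acyc_dual (k := 0) h (by omega) (high 8 (by omega) (by omega))
      · exact acyc_dual (k := 1) h (by omega) (high 7 (by omega) (by omega))
      · exact acyc_dual (k := 2) h (by omega) (high 6 (by omega) (by omega))
      · exact h5
  · obtain ⟨σ, hσ, -, hc⟩ := h.pure (hv v0) (Finset.singleton_nonempty v0)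
    intro h0
    have := congrFun h0 σ
    simp only [fund, Pi.zero_apply] at this
    rw [if_pos ⟨hσ, hc⟩] at this
    exact one_ne_zero this
  · rintro y ⟨hy, hb, hy0⟩
    obtain ⟨hM, hS⟩ := h.link_single (hv v0)
    have key : ∀ y, IsChain K 9 y → bd y = 0 → res v0 y = 0 → y = 0 := by
      intro y hy hb hr
      have h1 : IsChain (del K {v0}) 9 y := by
        intro t ht
        refine ⟨⟨(hy t ht).1, ?_⟩, (hy t ht).2⟩
        rw [Finset.disjoint_singleton_right]
        intro hvt
        have := congrFun hr (t.erase v0)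
        simp only [res, if_neg (Finset.notMem_erase v0 t), Finset.insert_erase hvt,
          Pi.zero_apply] at this
        exact ht this
      obtain ⟨c, hc, hc'⟩ := acyc_del hV h (hv v0) (Finset.singleton_nonempty v0) (by omega) _ h1 hb
      have : c = 0 := by
        funext t
        by_contra hne
        have := h.dim t (hc t hne).1.1
        rw [(hc t hne).2] at this
        omega
      rw [← hc', this, bd_zero]
    have hr : IsChain (link K {v0}) 8 (res v0 y) := by
      have := IsChain.res (L := K) (τ := ∅) v0 (by rw [del_empty]; exact hy)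
      rwa [del_empty] at this
    have h1 : res v0 y = fund (link K {v0}) 8 := by
      refine fund_eq_of_sphere hM hS hr ?_ fun h0 => hy0 (key y hy hb h0)
      rw [bd_res, hb]; funext t; simp [res]
    have h2 := key (y + fund K 9) (hy.add (isChain_fund _ _)) (by rw [bd_add, hb, h.fc, add_zero])
      (by rw [res_add, res_fund, h1, fun_add_self])
    rw [← add_zero y, ← h2, ← add_assoc, fun_add_self, zero_add]

/-- Complementarity from the intrinsic hypotheses. -/
theorem complementarity' (hV : Fintype.card V = 15) (hK : IsComplex K) (hM : HomManifold K 8)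
    (hn : ¬ HomSphere K 9) (W : Finset V) : W ∈ K ↔ Wᶜ ∉ K :=
  complementarity hV (man_of (by norm_num) hK hM)
    (fun h5 => hn (homSphere_of_acyc hV (man_of (by norm_num) hK hM) hK.2 h5)) W

end HP15
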