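import Pool.Agent.P.MP_29b816_gt.T.Comp

/-! Local facts: links are manifolds, a 10-set with five facets gives a distinguished triple,
some 10-set contains three facets. -/

namespace HP15

open Finset

variable {V : Type*} [Fintype V] [DecidableEq V] {K : Set (Finset V)}

theorem link_empty (L : Set (Finset V)) : link L ∅ = L := by
  ext t; simp [link]

theorem Man.link {n : ℕ} (h : Man K n) (s : Finset V) (hs : s ∈ K) :
    Man (link K s) (n - s.card) := by
  induction s using Finset.induction_on with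
  | empty => simpa [link_empty] using h
  | insert v s hv ih =>
    have h1 := ih (h.down _ hs _ (Finset.subset_insert _ _))
    have h2 := h.dim _ hs
    rw [Finset.card_insert_of_notMem hv] at h2 ⊢
    have e : n - s.card = n - (s.card + 1) + 1 := by omega
    rw [e] at h1
    have h3 := (h1.link_single (singleton_mem_link.2 ⟨hv, hs⟩)).1
    rwa [link_link K (Finset.disjoint_singleton_right.2 hv), Finset.union_comm,
      ← Finset.insert_eq] at h3

theorem bd_dl_ne {W t : Finset V} (h : bd (dl W) t ≠ 0) : ∃ v ∈ W, t = W.erase v := by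
  obtain ⟨v, hv, h1⟩ := exists_of_bd_ne h
  have h2 : insert v t = W := by
    by_contra hne; simp [dl, hne] at h1
  exact ⟨v, h2 ▸ Finset.mem_insert_self v t, by rw [← h2, Finset.erase_insert hv]⟩

/-- A sphere that contains the boundary of a simplex of the right size equals it. -/
theorem eq_bdry {L : Set (Finset V)} {n : ℕ} (h : Man L n) (hS : HomSphere L n) {W : Finset V}
    (hW : W.card = n + 1) (hsub : ∀ v ∈ W, W.erase v ∈ L) : L = bdry W := by
  obtain ⟨w, hw⟩ : W.Nonempty := Finset.card_pos.1 (by omega)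
  have hf : bd (dl W) = fund L n := by
    refine fund_eq_of_sphere h hS ?_ (bd_bd _) ?_
    · intro t ht
      obtain ⟨v, hv, rfl⟩ := bd_dl_ne ht
      exact ⟨hsub v hv, by rw [Finset.card_erase_of_mem hv, hW]; rfl⟩
    · intro h0
      have := bd_dl_erase hw
      rw [h0] at this
      exact zero_ne_one this
  ext t
  constructor
  · intro ht
    rcases t.eq_empty_or_nonempty with rfl | hne
    · exact Finset.empty_ssubset.2 ⟨w, hw⟩
    · obtain ⟨σ, hσ, hts, hc⟩ := h.pure ht hne
      have h1 : bd (dl W) σ ≠ 0 := by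
        rw [hf]; simp only [fund]; rw [if_pos ⟨hσ, hc⟩]; exact one_ne_zero
      obtain ⟨v, hv, rfl⟩ := bd_dl_ne h1
      exact Finset.ssubset_of_subset_of_ssubset hts (Finset.erase_ssubset hv)
  · intro ht
    obtain ⟨v, hv, hvt⟩ := Finset.exists_of_ssubset ht
    exact h.down _ (hsub v hv) _ (Finset.subset_erase.2 ⟨ht.1, hvt⟩)

theorem five_mem (hV : Fintype.card V = 15) (h : Man K 9) (hc : ∀ W, W ∈ K ↔ Wᶜ ∉ K)
    {s : Finset V} (hs : s.card ≤ 5) : s ∈ K := by
  rw [hc]
  intro h'
  have := h.dim _ h'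
  rw [Finset.card_compl, hV] at this
  omega

/-- A 10-set that contains five facets gives a distinguished triple. -/
theorem distinguished_of_five (hV : Fintype.card V = 15) (h : Man K 9)
    (hc : ∀ W, W ∈ K ↔ Wᶜ ∉ K) {T C : Finset V} (hT : T.card = 10) (hCT : C ⊆ T)
    (hC : C.card = 5) (hf : ∀ u ∈ C, T.erase u ∈ K) : Distinguished K Tᶜ (T \ C) C := by
  have hA5 : Tᶜ.card = 5 := by rw [Finset.card_compl, hV, hT]
  have hB5 : (T \ C).card = 5 := by rw [Finset.card_sdiff_of_subset hCT, hT, hC]
  have hA := five_mem hV h hc hA5.le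
  have hB := five_mem hV h hc hB5.le
  have hCK := five_mem hV h hc hC.le
  have sph : ∀ s ∈ K, s.card = 5 → Man (link K s) 4 ∧ HomSphere (link K s) 4 := by
    intro s hs h5
    have h1 := h.link s hs
    have h2 := h.lk s hs (Finset.card_pos.1 (by omega))
    rw [h5] at h1 h2
    exact ⟨h1, h2⟩
  have dAB : Disjoint Tᶜ (T \ C) :=
    Finset.disjoint_of_subset_right Finset.sdiff_subset disjoint_compl_left
  have dBC : Disjoint (T \ C) C := Finset.sdiff_disjoint
  have dCA : Disjoint C Tᶜ := Finset.disjoint_of_subset_left hCT disjoint_compl_right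
  have lB : link K (T \ C) = bdry C := by
    refine eq_bdry (sph _ hB hB5).1 (sph _ hB hB5).2 hC fun v hv => ⟨?_, ?_⟩
    · exact Finset.disjoint_of_subset_right (Finset.erase_subset _ _) dBC
    · refine h.down _ (hf v hv) _ ?_
      intro x hx
      rcases Finset.mem_union.1 hx with hx | hx
      · rw [Finset.mem_sdiff] at hx
        exact Finset.mem_erase.2 ⟨fun e => hx.2 (e ▸ hv), hx.1⟩
      · rw [Finset.mem_erase] at hx
        exact Finset.mem_erase.2 ⟨hx.1, hCT hx.2⟩
  have lC : link K C = bdry Tᶜ := by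
    refine eq_bdry (sph _ hCK hC).1 (sph _ hCK hC).2 hA5 fun v hv => ⟨?_, ?_⟩
    · exact Finset.disjoint_of_subset_right (Finset.erase_subset _ _) dCA
    · rw [hc]
      intro h'
      have hvT : v ∉ T := Finset.mem_compl.1 hv
      have h1 : {v} ∈ link K (T \ C) := by
        rw [singleton_mem_link]
        refine ⟨fun h2 => hvT (Finset.mem_sdiff.1 h2).1, h.down _ h' _ ?_⟩
        intro x hx
        rw [Finset.mem_compl, Finset.mem_union, not_or]
        rcases Finset.mem_insert.1 hx with rfl | hx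
        · exact ⟨fun h2 => hvT (hCT h2), Finset.notMem_erase _ _⟩
        · rw [Finset.mem_sdiff] at hx
          exact ⟨hx.2, fun h2 => Finset.mem_compl.1 (Finset.mem_of_mem_erase h2) hx.1⟩
      rw [lB] at h1
      exact hvT (hCT (h1.1 (Finset.mem_singleton_self v)))
  have lA : link K Tᶜ = bdry (T \ C) := by
    refine eq_bdry (sph _ hA hA5).1 (sph _ hA hA5).2 hB5 fun v hv => ⟨?_, ?_⟩
    · exact Finset.disjoint_of_subset_right (Finset.erase_subset _ _) dAB
    · rw [hc]
      intro h'
      have hv' := Finset.mem_sdiff.1 hv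
      have h1 : {v} ∈ link K C := by
        rw [singleton_mem_link]
        refine ⟨hv'.2, h.down _ h' _ ?_⟩
        intro x hx
        rw [Finset.mem_compl, Finset.mem_union, not_or]
        rcases Finset.mem_insert.1 hx with rfl | hx
        · exact ⟨fun h2 => Finset.mem_compl.1 h2 hv'.1, Finset.notMem_erase _ _⟩
        · exact ⟨fun h2 => Finset.mem_compl.1 h2 (hCT hx),
            fun h2 => (Finset.mem_sdiff.1 (Finset.mem_of_mem_erase h2)).2 hx⟩
      rw [lC] at h1
      exact Finset.mem_compl.1 (h1.1 (Finset.mem_singleton_self v)) hv'.1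
  refine ⟨hA, hB, hCK, hA5, hB5, hC, dAB, dBC, dCA, ?_, lA, lB, lC⟩
  rw [Finset.union_assoc, Finset.sdiff_union_of_subset hCT, Finset.union_comm,
    Finset.union_compl]

/-- Every ridge lies in exactly two facets (working form). -/
theorem Man.ridge {n : ℕ} (h : Man K (n + 1)) {t : Finset V} (ht : t ∈ K) (hne : t.Nonempty)
    (hc : t.card = n) : ∃ a b : V, a ≠ b ∧ ∀ v, (v ∉ t ∧ insert v t ∈ K) ↔ v = a ∨ v = b :=
  ridge_two (d := n) h.lk ht hne hc

/-- Every facet lies in a 10-set that contains three facets. -/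
theorem exists_three (hV : Fintype.card V = 15) (h : Man K 9) {σ : Finset V} (hσ : σ ∈ K)
    (hc : σ.card = 9) : ∃ u v w, u ∉ σ ∧ v ∈ σ ∧ w ∈ σ ∧ v ≠ w ∧
      insert u (σ.erase v) ∈ K ∧ insert u (σ.erase w) ∈ K := by
  have hex : ∀ v ∈ σ, ∃ u, u ∉ σ ∧ insert u (σ.erase v) ∈ K := by
    intro v hv
    have h8 : (σ.erase v).card = 8 := by rw [Finset.card_erase_of_mem hv, hc]
    obtain ⟨a, b, hab, hl⟩ := h.ridge (h.down _ hσ _ (Finset.erase_subset v σ))
      (Finset.card_pos.1 (by omega)) h8
    have key : ∀ a, a ≠ v → (a ∉ σ.erase v ∧ insert a (σ.erase v) ∈ K) →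
        ∃ u, u ∉ σ ∧ insert u (σ.erase v) ∈ K :=
      fun a hav ha => ⟨a, fun h' => ha.1 (Finset.mem_erase.2 ⟨hav, h'⟩), ha.2⟩
    by_cases hav : a = v
    · exact key b (fun e => hab (hav.trans e.symm)) ((hl b).2 (Or.inr rfl))
    · exact key a hav ((hl a).2 (Or.inl rfl))
  choose! f hf hf' using hex
  obtain ⟨v, hv, w, hw, hvw, he⟩ := Finset.exists_ne_map_eq_of_card_lt_of_maps_to
    (s := σ) (t := σᶜ) (f := f) (by rw [compl_card hV hc, hc]; omega)
    (fun v hv => by simpa using hf v hv)
  exact ⟨f v, v, w, hf v hv, hv, hw, hvw, hf' v hv, he ▸ hf' w hw⟩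

end HP15
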