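import Pool.Agent.P.MP_29b816_gt.T.Chain

/-! Pushing chains off a face of a homology manifold. -/

namespace HP15

open Finset

variable {V : Type*} [Fintype V] [DecidableEq V]

/-- Working form of a closed homology manifold whose facets have `n` vertices. -/
structure Man (L : Set (Finset V)) (n : ℕ) : Prop where
  down : ∀ s ∈ L, ∀ t, t ⊆ s → t ∈ L
  dim : ∀ s ∈ L, s.card ≤ n
  lk : ∀ s ∈ L, s.Nonempty → HomSphere (link L s) (n - s.card)
  fc : bd (fund L n) = 0

theorem link_link (L : Set (Finset V)) {s t : Finset V} (h : Disjoint s t) :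
    link (link L s) t = link L (s ∪ t) := by
  ext u
  simp only [link, Set.mem_setOf_eq, Finset.disjoint_union_left, Finset.disjoint_union_right,
    Finset.union_assoc]
  tauto

theorem link_down {L : Set (Finset V)} (hL : ∀ s ∈ L, ∀ t, t ⊆ s → t ∈ L) (s : Finset V) :
    ∀ u ∈ link L s, ∀ t, t ⊆ u → t ∈ link L s :=
  fun u hu t ht => ⟨Finset.disjoint_of_subset_right ht hu.1,
    hL _ hu.2 _ (Finset.union_subset_union_right ht)⟩

theorem Man.link_single {L : Set (Finset V)} {n : ℕ} (h : Man L (n + 1)) {v : V}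
    (hv : {v} ∈ L) : Man (link L {v}) n ∧ HomSphere (link L {v}) n := by
  have hs : HomSphere (link L {v}) n := by
    simpa using h.lk _ hv (Finset.singleton_nonempty v)
  refine ⟨⟨link_down h.down _, hs.1, ?_, ?_⟩, hs⟩
  · intro s hs' hne
    rw [link_link L hs'.1]
    have := h.lk _ hs'.2 (hne.mono Finset.subset_union_right)
    rw [Finset.card_union_of_disjoint hs'.1, Finset.card_singleton] at this
    have e : n + 1 - (1 + s.card) = n - s.card := by omega
    rwa [e] at this
  · rw [← res_fund, bd_res, h.fc]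
    funext t; simp [res]

/-- Every face of a manifold lies in a facet. -/
theorem Man.pure {L : Set (Finset V)} {n : ℕ} (h : Man L n) {s : Finset V} (hs : s ∈ L)
    (hne : s.Nonempty) : ∃ σ ∈ L, s ⊆ σ ∧ σ.card = n := by
  obtain ⟨z, ⟨hz, -, hz0⟩, -⟩ := (h.lk s hs hne).2.2
  obtain ⟨t, ht⟩ := Function.ne_iff.1 hz0
  obtain ⟨h1, h2⟩ := hz t ht
  refine ⟨s ∪ t, h1.2, Finset.subset_union_left, ?_⟩
  rw [Finset.card_union_of_disjoint h1.1, h2]
  have := h.dim s hs
  omega

theorem fund_eq_of_sphere {L : Set (Finset V)} {n : ℕ} (h : Man L n) (hs : HomSphere L n)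
    {z : Finset V → ZMod 2} (hz : IsChain L n z) (hb : bd z = 0) (h0 : z ≠ 0) :
    z = fund L n := by
  obtain ⟨y, -, hy⟩ := hs.2.2
  have h1 : fund L n ≠ 0 := by
    obtain ⟨t, ht⟩ := Function.ne_iff.1 h0
    intro hf
    have := congrFun hf t
    simp only [fund, Pi.zero_apply] at this
    rw [if_pos (hz t ht)] at this
    exact one_ne_zero this
  rw [hy z ⟨hz, hb, h0⟩, hy _ ⟨isChain_fund L n, h.fc, h1⟩]

/-- The statement proved by induction on the dimension. -/
def AcycDel (V : Type*) [Fintype V] [DecidableEq V] (n : ℕ) : Prop :=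
  ∀ L : Set (Finset V), Man L n → HomSphere L n → ∀ τ ∈ L, τ.Nonempty → ∀ k, Acyc (del L τ) k

theorem push_of {n : ℕ} (ih : AcycDel V n) {L : Set (Finset V)} (h : Man L (n + 1))
    {τ : Finset V} (hτ : τ ∈ L) {k : ℕ} (m : ℕ) :
    ∀ τ0, τ0 ⊆ τ → (τ \ τ0).card = m → (k ≠ n + 1 ∨ τ0.Nonempty) →
      ∀ c, IsChain (del L τ0) k c → (∀ t, bd c t ≠ 0 → Disjoint t τ) →
        ∃ e, IsChain (del L τ0) (k + 1) e ∧ IsChain (del L τ) k (c + bd e) := by
  induction m with
  | zero =>
    intro τ0 h0 hm _ c hc _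
    have : τ0 = τ := Finset.Subset.antisymm h0
      (Finset.sdiff_eq_empty_iff_subset.1 (Finset.card_eq_zero.1 hm))
    subst this
    exact ⟨0, isChain_zero _ _, by rw [bd_zero, add_zero]; exact hc⟩
  | succ m ihm =>
    intro τ0 h0 hm hk c hc hb
    obtain ⟨v, hv⟩ : (τ \ τ0).Nonempty := Finset.card_pos.1 (by omega)
    obtain ⟨hvτ, hv0⟩ := Finset.mem_sdiff.1 hv
    have hvL : {v} ∈ L := h.down _ hτ _ (Finset.singleton_subset_iff.2 hvτ)
    obtain ⟨hM, hS⟩ := h.link_single hvL
    have hins : insert v τ0 ⊆ τ := Finset.insert_subset hvτ h0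
    have hcyc : bd (res v c) = 0 := by
      rw [bd_res]
      funext t
      unfold res
      split_ifs with ht
      · rfl
      · by_contra hne
        exact Finset.disjoint_left.1 (hb _ hne) (Finset.mem_insert_self v t) hvτ
    obtain ⟨e, he, hbe⟩ : ∃ e, IsChain (del (link L {v}) τ0) k e ∧ bd e = res v c := by
      cases k with
      | zero =>
        refine ⟨0, isChain_zero _ _, ?_⟩
        rw [bd_zero]
        funext t
        unfold res
        split_ifs with ht
        · rfl
        · by_contra hne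
          have := (hc _ (Ne.symm hne)).2
          rw [Finset.card_insert_of_notMem ht] at this
          omega
      | succ j =>
        have hr := hc.res v
        rcases τ0.eq_empty_or_nonempty with rfl | hne
        · rw [del_empty] at hr ⊢
          have hj : j ≠ n := by
            rcases hk with hk | hk
            · omega
            · exact absurd hk Finset.not_nonempty_empty
          exact hS.2.1 j hj _ hr hcyc
        · exact ih _ hM hS τ0 (mem_link_single.2 ⟨hv0, h.down _ hτ _ hins⟩) hne j _ hr hcyc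
    have h1 := push_step h.down hv0 hc he hbe
    have hcard : (τ \ insert v τ0).card = m := by
      rw [Finset.sdiff_insert, Finset.card_erase_of_mem hv]; omega
    obtain ⟨e', he', h2⟩ := ihm (insert v τ0) hins hcard
      (Or.inr (Finset.insert_nonempty _ _)) _ h1
      (by rw [bd_add, bd_bd, add_zero]; exact hb)
    refine ⟨cone v e + e', (he.cone hv0).add
      (he'.mono (del_anti L (Finset.subset_insert _ _))), ?_⟩
    rwa [bd_add, ← add_assoc]

/-- A chain whose boundary avoids the face `τ` can be replaced by one that avoids `τ`. -/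
theorem push2_of {n : ℕ} (ih : AcycDel V n) {L : Set (Finset V)} (h : Man L (n + 1))
    {τ : Finset V} (hτ : τ ∈ L) {k : ℕ} {c : Finset V → ZMod 2} (hc : IsChain L k c)
    (hb : ∀ t, bd c t ≠ 0 → Disjoint t τ) :
    ∃ c', IsChain (del L τ) k c' ∧ bd c' = bd c := by
  by_cases hk : k = n + 1
  · subst hk
    rcases τ.eq_empty_or_nonempty with rfl | ⟨v, hv⟩
    · exact ⟨c, by rwa [del_empty], rfl⟩
    have hvL : {v} ∈ L := h.down _ hτ _ (Finset.singleton_subset_iff.2 hv)
    obtain ⟨hM, hS⟩ := h.link_single hvL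
    have hcyc : bd (res v c) = 0 := by
      rw [bd_res]
      funext t
      unfold res
      split_ifs with ht
      · rfl
      · by_contra hne
        exact Finset.disjoint_left.1 (hb _ hne) (Finset.mem_insert_self v t) hv
    have hr : IsChain (link L {v}) n (res v c) := by
      have := IsChain.res (L := L) (τ := ∅) v (by rw [del_empty]; exact hc)
      rwa [del_empty] at this
    obtain ⟨c1, hc1, hb1, hr1⟩ : ∃ c1, IsChain L (n + 1) c1 ∧ bd c1 = bd c ∧ res v c1 = 0 := by
      by_cases h0 : res v c = 0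
      · exact ⟨c, hc, rfl, h0⟩
      · refine ⟨c + fund L (n + 1), hc.add (isChain_fund _ _), by rw [bd_add, h.fc, add_zero], ?_⟩
        rw [res_add, res_fund, ← fund_eq_of_sphere hM hS hr hcyc h0, fun_add_self]
    have hc2 : IsChain (del L {v}) (n + 1) c1 := by
      intro t ht
      refine ⟨⟨(hc1 t ht).1, ?_⟩, (hc1 t ht).2⟩
      rw [Finset.disjoint_singleton_right]
      intro hvt
      have := congrFun hr1 (t.erase v)
      simp only [res, if_neg (Finset.notMem_erase v t), Finset.insert_erase hvt,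
        Pi.zero_apply] at this
      exact ht this
    obtain ⟨e, -, he⟩ := push_of ih h hτ _ {v} (Finset.singleton_subset_iff.2 hv) rfl
      (Or.inr (Finset.singleton_nonempty v)) c1 hc2 (by rw [hb1]; exact hb)
    exact ⟨_, he, by rw [bd_add, bd_bd, add_zero, hb1]⟩
  · obtain ⟨e, -, he⟩ := push_of ih h hτ _ ∅ (Finset.empty_subset _) rfl (Or.inl hk) c
      (by rw [del_empty]; exact hc) hb
    exact ⟨_, he, by rw [bd_add, bd_bd, add_zero]⟩

theorem acycDel (n : ℕ) : AcycDel V n := by
  induction n with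
  | zero =>
    intro L h _ τ hτ hne
    have := h.dim τ hτ
    have := hne.card_pos
    omega
  | succ n ih =>
    intro L h hS τ hτ hne k z hz hb
    by_cases hk : k = n + 1
    · subst hk
      refine ⟨0, isChain_zero _ _, ?_⟩
      rw [bd_zero]
      by_contra h0
      have hf := fund_eq_of_sphere h hS (hz.mono (del_sub L τ)) hb (Ne.symm h0)
      obtain ⟨σ, hσ, hsub, hcard⟩ := h.pure hτ hne
      have h1 : z σ ≠ 0 := by
        rw [hf]; simp only [fund]; rw [if_pos ⟨hσ, hcard⟩]; exact one_ne_zero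
      obtain ⟨v, hv⟩ := hne
      exact Finset.disjoint_left.1 (hz σ h1).1.2 (hsub hv) hv
    · obtain ⟨c, hc, hbc⟩ := hS.2.1 k hk z (hz.mono (del_sub L τ)) hb
      obtain ⟨c', hc', hb'⟩ := push2_of ih h hτ hc
        (fun t ht => (hz t (by rwa [hbc] at ht)).1.2)
      exact ⟨c', hc', hb'.trans hbc⟩

theorem Man.push {n : ℕ} {L : Set (Finset V)} (h : Man L (n + 1)) {τ τ0 : Finset V}
    (hτ : τ ∈ L) (h0 : τ0 ⊆ τ) {k : ℕ} (hk : k ≠ n + 1 ∨ τ0.Nonempty) {c : Finset V → ZMod 2}
    (hc : IsChain (del L τ0) k c) (hb : ∀ t, bd c t ≠ 0 → Disjoint t τ) :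
    ∃ e, IsChain (del L τ0) (k + 1) e ∧ IsChain (del L τ) k (c + bd e) :=
  push_of (acycDel n) h hτ _ τ0 h0 rfl hk c hc hb

theorem Man.push2 {n : ℕ} {L : Set (Finset V)} (h : Man L (n + 1)) {τ : Finset V}
    (hτ : τ ∈ L) {k : ℕ} {c : Finset V → ZMod 2} (hc : IsChain L k c)
    (hb : ∀ t, bd c t ≠ 0 → Disjoint t τ) :
    ∃ c', IsChain (del L τ) k c' ∧ bd c' = bd c :=
  push2_of (acycDel n) h hτ hc hb

end HP15
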